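import Mathlib
import Pool.Agent.Helper6.SW.DefsZ
import Pool.Agent.Helper22.SW.BVsmall
import Pool.Agent.Helper79.SW.Mass

set_option autoImplicit false

/-! Z-7, Z-8: total mass of the weight on the integers; prime powers. -/

namespace Pool.Agent.Helper16.SW

open Finset Filter Topology Pool.Agent.Helper6.SW

/-- Z-7 -/
theorem stOmSum : StOmSum := by
  intro V k hV
  set δ : ℝ := 1 - Real.exp (-(V / 2)) with hδ
  have hδ0 : 0 < δ := by
    have : Real.exp (-(V / 2)) < 1 := by
      rw [Real.exp_lt_one_iff]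
      linarith
    linarith
  refine ⟨δ / 2 * ((1 / 2) ^ k * Real.exp (-1) * (1 / 2)), max (max 3 (Real.exp V)) (2 / δ),
    by positivity, fun X hX => ?_⟩
  have hX3 : 3 ≤ X := (le_max_left _ _).trans ((le_max_left _ _).trans hX)
  have hXV : Real.exp V ≤ X := (le_max_right _ _).trans ((le_max_left _ _).trans hX)
  have hXδ : 2 / δ ≤ X := (le_max_right _ _).trans hX
  have hXpos : 0 < X := by linarith
  have hlogX : V ≤ Real.log X := by
    rw [← Real.log_exp V]
    exact Real.log_le_log (Real.exp_pos _) hXV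
  have hlogXpos : 0 < Real.log X := lt_of_lt_of_le hV hlogX
  have hδX : 2 ≤ δ * X := by
    rw [div_le_iff₀ hδ0] at hXδ
    linarith
  set a : ℕ := ⌊Real.exp (-(V / 2)) * X⌋₊ with ha
  set b : ℕ := ⌊X⌋₊ with hb
  have haR : (a : ℝ) ≤ Real.exp (-(V / 2)) * X := Nat.floor_le (by positivity)
  have hbR : X - 1 < (b : ℝ) := by
    have := Nat.lt_floor_add_one X
    rw [← hb] at this
    linarith
  have hbX : (b : ℝ) ≤ X := Nat.floor_le hXpos.le
  have hcount : δ / 2 * X ≤ ((b : ℝ) - a) := by
    have h1 : δ * X = X - Real.exp (-(V / 2)) * X := by rw [hδ]; ring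
    linarith
  have hab : a ≤ b := by
    have h1 : (a : ℝ) ≤ b := by
      have : 0 ≤ δ / 2 * X := by positivity
      linarith
    exact_mod_cast h1
  have hsub : Ioc a b ⊆ Icc 1 (NX V X) := by
    intro n hn
    rw [mem_Ioc] at hn
    rw [mem_Icc]
    refine ⟨by omega, hn.2.trans ?_⟩
    rw [hb, NX]
    apply Nat.floor_le_floor
    have : 1 ≤ Real.exp V := Real.one_le_exp hV.le
    nlinarith
  have hterm : ∀ n ∈ Ioc a b,
      ((1 / 2) ^ k * Real.exp (-1) * (1 / 2)) * (Real.log X) ^ k / X ≤ om V k X n := by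
    intro n hn
    rw [mem_Ioc] at hn
    have hn1 : 1 ≤ n := by omega
    have hn1R : (1 : ℝ) ≤ n := by exact_mod_cast hn1
    have hn0 : (0 : ℝ) < n := by linarith
    have hnX : (n : ℝ) ≤ X := by
      have h1 : (n : ℝ) ≤ b := by exact_mod_cast hn.2
      exact h1.trans hbX
    have hna : Real.exp (-(V / 2)) * X < n := by
      have h1 := hn.1
      rw [ha, Nat.floor_lt (by positivity)] at h1
      exact h1
    have hlogn : Real.log n ≤ Real.log X := Real.log_le_log hn0 hnX
    have hlogn2 : Real.log X - V / 2 ≤ Real.log n := by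
      have h1 := Real.log_le_log (by positivity) hna.le
      rw [Real.log_mul (Real.exp_pos _).ne' hXpos.ne', Real.log_exp] at h1
      linarith
    have htent : 1 / 2 ≤ tent V (Real.log n - Real.log X) := by
      unfold tent
      refine le_trans ?_ (le_max_right _ _)
      have h1 : |Real.log n - Real.log X| ≤ V / 2 := by
        rw [abs_le]; constructor <;> linarith
      have h2 : |Real.log n - Real.log X| / V ≤ 1 / 2 := by
        rw [div_le_iff₀ hV]; linarith
      linarith
    have hpow : (1 / 2) ^ k * (Real.log X) ^ k ≤ (Real.log n) ^ k := by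
      rw [← mul_pow]
      exact pow_le_pow_left₀ (by positivity) (by linarith) k
    have hrp : Real.exp (-1) / X ≤ (n : ℝ) ^ (-(1 + 1 / Real.log X)) := by
      have h0 : Real.exp (-1) / X ≤ Real.exp (-1) / n :=
        div_le_div_of_nonneg_left (Real.exp_pos _).le hn0 hnX
      refine h0.trans ?_
      rw [Real.rpow_def_of_pos hn0]
      have h1 : Real.log n * -(1 + 1 / Real.log X)
          = - Real.log n + -(Real.log n / Real.log X) := by
        ring
      rw [h1, Real.exp_add, Real.exp_neg (Real.log n), Real.exp_log hn0, div_eq_inv_mul]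
      refine mul_le_mul_of_nonneg_left ?_ (by positivity)
      apply Real.exp_le_exp.2
      have h2 : Real.log n / Real.log X ≤ 1 := by
        rw [div_le_one hlogXpos]; exact hlogn
      linarith
    unfold om
    calc ((1 / 2) ^ k * Real.exp (-1) * (1 / 2)) * (Real.log X) ^ k / X
        = ((1 / 2) ^ k * (Real.log X) ^ k) * (Real.exp (-1) / X) * (1 / 2) := by ring
      _ ≤ (Real.log n) ^ k * (n : ℝ) ^ (-(1 + 1 / Real.log X)) *
            tent V (Real.log n - Real.log X) := by
          apply mul_le_mul _ htent (by norm_num)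
          · have : 0 ≤ Real.log (n : ℝ) := Real.log_nonneg hn1R
            positivity
          · exact mul_le_mul hpow hrp (by positivity)
              (pow_nonneg (Real.log_nonneg hn1R) k)
  have hsum : (((b : ℝ) - a)) * (((1 / 2) ^ k * Real.exp (-1) * (1 / 2)) * (Real.log X) ^ k / X)
      ≤ ∑ n ∈ Ioc a b, om V k X n := by
    have h1 := Finset.sum_le_sum hterm
    rw [Finset.sum_const, Nat.card_Ioc, nsmul_eq_mul, Nat.cast_sub hab] at h1
    exact h1
  calc δ / 2 * ((1 / 2) ^ k * Real.exp (-1) * (1 / 2)) * Real.log X ^ k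
      = (δ / 2 * X) * (((1 / 2) ^ k * Real.exp (-1) * (1 / 2)) * (Real.log X) ^ k / X) := by
        field_simp
    _ ≤ (((b : ℝ) - a)) * (((1 / 2) ^ k * Real.exp (-1) * (1 / 2)) * (Real.log X) ^ k / X) :=
        mul_le_mul_of_nonneg_right hcount (by positivity)
    _ ≤ ∑ n ∈ Ioc a b, om V k X n := hsum
    _ ≤ ∑ n ∈ Icc 1 (NX V X), om V k X n :=
        Finset.sum_le_sum_of_subset_of_nonneg hsub fun n _ _ =>
          Pool.Agent.Helper79.SW.om_nonneg V k X n

/-- Z-8 -/
theorem stPrimePow : StPrimePow := by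
  intro V k hV
  -- the error term tends to zero
  have hev : ∀ᶠ X : ℝ in atTop, (V + Real.log X) ^ k * (Real.exp V / X) *
      (2 * Real.sqrt (Real.exp V * X) * (V + Real.log X)) ≤ 1 := by
    have h1 := Pool.Agent.Helper22.SW.ev_pow V (1 / 4) (k + 1) (by norm_num)
    have h2 : ∀ᶠ X : ℝ in atTop, 2 * Real.exp V * Real.sqrt (Real.exp V) ≤ X ^ (1 / 4 : ℝ) :=
      (tendsto_rpow_atTop (by norm_num : (0 : ℝ) < 1 / 4)).eventually_ge_atTop _
    filter_upwards [h1, h2, eventually_gt_atTop 1] with X a1 a2 a3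
    have hX0 : 0 < X := by linarith
    have hq : X ^ (1 / 4 : ℝ) * X ^ (1 / 4 : ℝ) = Real.sqrt X := by
      rw [← Real.rpow_add hX0, Real.sqrt_eq_rpow]
      norm_num
    have hs : Real.sqrt X * Real.sqrt X = X := Real.mul_self_sqrt hX0.le
    have hs0 : 0 < Real.sqrt X := Real.sqrt_pos.2 hX0
    have hL : 0 < Real.log X := Real.log_pos a3
    have e1 : (V + Real.log X) ^ k * (Real.exp V / X) *
        (2 * Real.sqrt (Real.exp V * X) * (V + Real.log X))
        = (V + Real.log X) ^ (k + 1) * (2 * Real.exp V * Real.sqrt (Real.exp V)) / Real.sqrt X := by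
      rw [Real.sqrt_mul (Real.exp_pos V).le]
      have e2 : Real.exp V / X = Real.exp V / (Real.sqrt X * Real.sqrt X) := by rw [hs]
      rw [e2, pow_succ]
      field_simp
    rw [e1, div_le_one hs0, ← hq]
    exact mul_le_mul a1 a2 (by positivity) (by positivity)
  obtain ⟨X₀, hX₀⟩ := eventually_atTop.1 hev
  refine ⟨max X₀ 3, fun X hX => ?_⟩
  have hXX : X₀ ≤ X := (le_max_left _ _).trans hX
  have hX3 : 3 ≤ X := (le_max_right _ _).trans hX
  have hX1 : 1 < X := by linarith
  have hX0 : 0 < X := by linarith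
  have herr := hX₀ X hXX
  have hL : 0 < Real.log X := Real.log_pos hX1
  have hMass : Mass V k X = ∑ n ∈ Icc 1 (NX V X),
      (if n.Prime then Real.log n else 0) * om V k X n := by
    unfold Mass PX
    rw [Finset.sum_filter]
    refine Finset.sum_congr rfl fun n _ => ?_
    split_ifs <;> simp
  have hnn : ∀ n : ℕ, 0 ≤ ArithmeticFunction.vonMangoldt n -
      (if n.Prime then Real.log n else 0) := by
    intro n
    split_ifs with hp
    · rw [ArithmeticFunction.vonMangoldt_apply_prime hp]
      simp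
    · simp [ArithmeticFunction.vonMangoldt_nonneg]
  have h2 : ∑ n ∈ Icc 1 (NX V X), ArithmeticFunction.vonMangoldt n * om V k X n
      = Mass V k X + ∑ n ∈ Icc 1 (NX V X),
        (ArithmeticFunction.vonMangoldt n - (if n.Prime then Real.log n else 0)) * om V k X n := by
    rw [hMass, ← Finset.sum_add_distrib]
    refine Finset.sum_congr rfl fun n _ => ?_
    ring
  have h3 : ∑ n ∈ Icc 1 (NX V X),
        (ArithmeticFunction.vonMangoldt n - (if n.Prime then Real.log n else 0)) * om V k X n ≤
      (V + Real.log X) ^ k * (Real.exp V / X) * ∑ n ∈ Icc 1 (NX V X),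
        (ArithmeticFunction.vonMangoldt n - (if n.Prime then Real.log n else 0)) := by
    rw [Finset.mul_sum]
    refine Finset.sum_le_sum fun n hn => ?_
    rw [mem_Icc] at hn
    have h5 := Pool.Agent.Helper22.SW.om_le hV k hX1 hn.1 hn.2
    have h6 := hnn n
    rw [mul_comm]
    exact mul_le_mul_of_nonneg_right h5 h6
  have h4 : ∑ n ∈ Icc 1 (NX V X),
        (ArithmeticFunction.vonMangoldt n - (if n.Prime then Real.log n else 0)) =
      Chebyshev.psi (Real.exp V * X) - Chebyshev.theta (Real.exp V * X) := by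
    rw [Finset.sum_sub_distrib]
    congr 1
    unfold Chebyshev.theta
    rw [Finset.sum_filter]
    rfl
  have h5 : Chebyshev.psi (Real.exp V * X) - Chebyshev.theta (Real.exp V * X) ≤
      2 * Real.sqrt (Real.exp V * X) * (V + Real.log X) := by
    have h6 := Chebyshev.psi_sub_theta_le (x := Real.exp V * X) (by
      have : 1 ≤ Real.exp V := Real.one_le_exp hV.le
      nlinarith)
    rwa [Real.log_mul (Real.exp_pos _).ne' hX0.ne', Real.log_exp] at h6
  rw [h4] at h3
  have h7 : (V + Real.log X) ^ k * (Real.exp V / X) *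
      (Chebyshev.psi (Real.exp V * X) - Chebyshev.theta (Real.exp V * X)) ≤
      (V + Real.log X) ^ k * (Real.exp V / X) *
      (2 * Real.sqrt (Real.exp V * X) * (V + Real.log X)) :=
    mul_le_mul_of_nonneg_left h5 (by positivity)
  rw [h2]
  linarith

end Pool.Agent.Helper16.SW
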