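import Mathlib
import Pool.Agent.Helper6.SW.Defs

set_option autoImplicit false

/-! Bounds for the principal character on `Re s > 1`. -/

namespace Pool.Agent.Helper16.SW

open Finset DirichletCharacter Pool.Agent.Helper6.SW

/-! ### zeta near the line `Re s = 1` -/

theorem norm_cpow_sub_le {s : ℂ} (hs : 0 < s.re) {a u : ℝ} (ha : 0 < a) (hau : a ≤ u) :
    ‖(u : ℂ) ^ (-s) - (a : ℂ) ^ (-s)‖ ≤ ‖s‖ * a ^ (-s.re - 1) * (u - a) := by
  have hs0 : -s ≠ 0 := by
    intro h
    rw [neg_eq_zero] at h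
    rw [h] at hs
    exact lt_irrefl _ hs
  refine norm_image_sub_le_of_norm_deriv_le_segment' (f := fun y : ℝ => (y : ℂ) ^ (-s))
    (f' := fun y : ℝ => -s * (y : ℂ) ^ (-s - 1)) (C := ‖s‖ * a ^ (-s.re - 1)) ?_ ?_ u
    (Set.right_mem_Icc.2 hau)
  · intro y hy
    exact (hasDerivAt_ofReal_cpow_const (lt_of_lt_of_le ha hy.1).ne' hs0).hasDerivWithinAt
  · intro y hy
    have hy0 : 0 < y := lt_of_lt_of_le ha hy.1
    rw [norm_mul, norm_neg, Complex.norm_cpow_eq_rpow_re_of_pos hy0]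
    refine mul_le_mul_of_nonneg_left ?_ (norm_nonneg _)
    have : (-s - 1 : ℂ).re = -s.re - 1 := by simp
    rw [this]
    exact Real.rpow_le_rpow_of_nonpos ha hy.1 (by linarith)

theorem norm_step {s : ℂ} (hs : 1 < s.re) {a : ℝ} (ha : 1 ≤ a) :
    ‖((a + 1 : ℝ) : ℂ) ^ (1 - s) / (1 - s) - (a : ℂ) ^ (1 - s) / (1 - s) - (a : ℂ) ^ (-s)‖ ≤
      ‖s‖ * (2 / a - 2 / (a + 1)) := by
  have ha0 : 0 < a := by linarith
  have hs1 : -s ≠ -1 := by
    intro h
    rw [neg_inj] at h
    rw [h, Complex.one_re] at hs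
    exact lt_irrefl _ hs
  have hpow : a ^ (-s.re - 1) ≤ 2 / a - 2 / (a + 1) := by
    have h1 : a ^ (-s.re - 1) ≤ a ^ (-2 : ℝ) :=
      Real.rpow_le_rpow_of_exponent_le ha (by linarith)
    have h2 : a ^ (-2 : ℝ) = 1 / a ^ 2 := by
      rw [Real.rpow_neg ha0.le]
      norm_num
    rw [h2] at h1
    refine h1.trans ?_
    have h3 : 2 / a - 2 / (a + 1) = 2 / (a * (a + 1)) := by field_simp; ring
    rw [h3, div_le_div_iff₀ (by positivity) (by positivity)]
    nlinarith
  have hC0 : 0 ≤ ‖s‖ * a ^ (-s.re - 1) := by positivity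
  have key := norm_image_sub_le_of_norm_deriv_le_segment'
    (f := fun y : ℝ => (y : ℂ) ^ (1 - s) / (1 - s) - (y : ℂ) * (a : ℂ) ^ (-s))
    (f' := fun y : ℝ => (y : ℂ) ^ (-s) - (a : ℂ) ^ (-s)) (C := ‖s‖ * a ^ (-s.re - 1))
    (a := a) (b := a + 1) ?_ ?_ (a + 1) (Set.right_mem_Icc.2 (by linarith))
  · rw [show a + 1 - a = 1 by ring, mul_one] at key
    have e : ((a + 1 : ℝ) : ℂ) ^ (1 - s) / (1 - s) - (a : ℂ) ^ (1 - s) / (1 - s) -
        (a : ℂ) ^ (-s) = ((a + 1 : ℝ) : ℂ) ^ (1 - s) / (1 - s) -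
          ((a + 1 : ℝ) : ℂ) * (a : ℂ) ^ (-s) -
        ((a : ℂ) ^ (1 - s) / (1 - s) - (a : ℂ) * (a : ℂ) ^ (-s)) := by
      push_cast
      ring
    rw [e]
    exact key.trans (mul_le_mul_of_nonneg_left hpow (norm_nonneg _))
  · intro y hy
    have hy0 : 0 < y := lt_of_lt_of_le ha0 hy.1
    have h1 := hasDerivAt_ofReal_cpow_const' hy0.ne' hs1
    rw [show -s + 1 = 1 - s by ring] at h1
    have h2 : HasDerivAt (fun y : ℝ => (y : ℂ) * (a : ℂ) ^ (-s)) ((a : ℂ) ^ (-s)) y := by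
      have := (Complex.ofRealCLM.hasDerivAt (x := y)).mul_const ((a : ℂ) ^ (-s))
      simpa using this
    exact (h1.sub h2).hasDerivWithinAt
  · intro y hy
    refine (norm_cpow_sub_le (by linarith) ha0 hy.1).trans ?_
    have : y - a ≤ 1 := by linarith [hy.2]
    calc ‖s‖ * a ^ (-s.re - 1) * (y - a) ≤ ‖s‖ * a ^ (-s.re - 1) * 1 :=
          mul_le_mul_of_nonneg_left this hC0
      _ = _ := mul_one _

theorem norm_sum_tail {s : ℂ} (hs : 1 < s.re) {K : ℕ} (hK : 1 ≤ K) (m : ℕ) :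
    ‖((K + m : ℕ) : ℂ) ^ (1 - s) / (1 - s) - (K : ℂ) ^ (1 - s) / (1 - s) -
      ∑ n ∈ range m, ((K + n : ℕ) : ℂ) ^ (-s)‖ ≤
      ‖s‖ * (2 / K - 2 / (K + m)) := by
  induction m with
  | zero => simp
  | succ m ih =>
    have hKm : (1 : ℝ) ≤ ((K + m : ℕ) : ℝ) := by
      have : 1 ≤ K + m := by omega
      exact_mod_cast this
    have h := norm_step hs hKm
    rw [sum_range_succ]
    have e : ((K + (m + 1) : ℕ) : ℂ) ^ (1 - s) / (1 - s) - (K : ℂ) ^ (1 - s) / (1 - s) -
        (∑ n ∈ range m, ((K + n : ℕ) : ℂ) ^ (-s) + ((K + m : ℕ) : ℂ) ^ (-s)) =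
        (((K + m : ℕ) : ℂ) ^ (1 - s) / (1 - s) - (K : ℂ) ^ (1 - s) / (1 - s) -
      ∑ n ∈ range m, ((K + n : ℕ) : ℂ) ^ (-s)) +
      ((((K + m : ℕ) : ℝ) + 1 : ℝ) ^ (1 - s) / (1 - s) -
        ((((K + m : ℕ) : ℝ) : ℂ)) ^ (1 - s) / (1 - s) - (((K + m : ℕ) : ℝ) : ℂ) ^ (-s)) := by
      push_cast
      ring_nf
    rw [e]
    refine (norm_add_le _ _).trans ((add_le_add ih h).trans (le_of_eq ?_))
    push_cast
    ring

theorem zeta_bound {s : ℂ} (hs : 1 < s.re) (hs2 : s.re ≤ 2) (ht : s.im ≠ 0) :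
    ‖riemannZeta s‖ ≤ 3 + Real.log (|s.im| + 4) + 2 / |s.im| := by
  set K : ℕ := ⌈|s.im| + 3⌉₊ with hKdef
  have hK3 : |s.im| + 3 ≤ K := Nat.le_ceil _
  have hK4 : (K : ℝ) ≤ |s.im| + 4 := by
    have := (Nat.ceil_lt_add_one (by positivity : (0:ℝ) ≤ |s.im| + 3)).le
    rw [← hKdef] at this
    linarith
  have hK1 : 1 ≤ K := by
    have : (1 : ℝ) ≤ K := by linarith [abs_nonneg s.im]
    exact_mod_cast this
  have hK0 : (0 : ℝ) < K := by exact_mod_cast hK1
  have ht0 : 0 < |s.im| := abs_pos.2 ht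
  have hsn : ‖s‖ ≤ K := by
    have h1 := Complex.norm_le_abs_re_add_abs_im s
    rw [abs_of_pos (by linarith : 0 < s.re)] at h1
    linarith
  have h1s : |s.im| ≤ ‖1 - s‖ := by
    have := Complex.abs_im_le_norm (1 - s)
    simpa using this
  have hz := zeta_eq_tsum_one_div_nat_cpow hs
  have hsum : Summable (fun n : ℕ => 1 / (n : ℂ) ^ s) := Complex.summable_one_div_nat_cpow.2 hs
  have hlim := hsum.hasSum.tendsto_sum_nat
  rw [← hz] at hlim
  refine le_of_tendsto (hlim.comp (Filter.tendsto_add_atTop_nat K)).norm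
    (Filter.Eventually.of_forall fun m => ?_)
  -- partial sums
  have hterm : ∀ n : ℕ, 1 ≤ n → ‖(n : ℂ) ^ (-s)‖ ≤ 1 / n := by
    intro n hn
    have hn0 : (0 : ℝ) < n := by exact_mod_cast hn
    have hn1 : (1 : ℝ) ≤ n := by exact_mod_cast hn
    have : ‖(n : ℂ) ^ (-s)‖ = (n : ℝ) ^ (-s.re) := by
      have := Complex.norm_cpow_eq_rpow_re_of_pos hn0 (-s)
      simpa using this
    rw [this]
    calc (n : ℝ) ^ (-s.re) ≤ (n : ℝ) ^ (-1 : ℝ) :=
          Real.rpow_le_rpow_of_exponent_le hn1 (by linarith)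
      _ = 1 / n := by rw [Real.rpow_neg_one, one_div]
  have hsplit : ∑ n ∈ range (m + K), 1 / (n : ℂ) ^ s =
      ∑ n ∈ range K, 1 / (n : ℂ) ^ s + ∑ n ∈ range m, ((K + n : ℕ) : ℂ) ^ (-s) := by
    rw [add_comm m K, sum_range_add]
    congr 1
    refine sum_congr rfl fun n _ => ?_
    rw [Complex.cpow_neg, one_div]
  have hfirst : ‖∑ n ∈ range K, 1 / (n : ℂ) ^ s‖ ≤ 1 + Real.log (|s.im| + 4) := by
    have h1 : ‖∑ n ∈ range K, 1 / (n : ℂ) ^ s‖ ≤ ∑ n ∈ range K, (if n = 0 then 0 else 1 / (n : ℝ)) := by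
      refine (norm_sum_le _ _).trans (sum_le_sum fun n _ => ?_)
      split_ifs with h0
      · subst h0
        rw [Nat.cast_zero, Complex.zero_cpow (by
          intro h
          rw [h] at ht
          exact ht rfl)]
        simp
      · have := hterm n (by omega)
        rw [Complex.cpow_neg, ← one_div] at this
        exact this
    have h2 : ∑ n ∈ range K, (if n = 0 then 0 else 1 / (n : ℝ)) ≤
        ((harmonic (K - 1) : ℚ) : ℝ) := by
      rw [harmonic_eq_sum_Icc]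
      push_cast
      have e : range K = insert 0 (Icc 1 (K - 1)) := by
        ext n
        simp only [mem_range, mem_insert, mem_Icc]
        omega
      rw [e, sum_insert (by simp)]
      simp only [if_true, zero_add]
      refine le_of_eq (sum_congr rfl fun n hn => ?_)
      rw [mem_Icc] at hn
      rw [if_neg (by omega), one_div]
    have h3 := harmonic_le_one_add_log (K - 1)
    have h4 : Real.log ((K - 1 : ℕ) : ℝ) ≤ Real.log (|s.im| + 4) := by
      rcases Nat.eq_zero_or_pos (K - 1) with h0 | h0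
      · rw [h0]
        simp only [Nat.cast_zero, Real.log_zero]
        exact Real.log_nonneg (by linarith)
      · refine Real.log_le_log (by exact_mod_cast h0) ?_
        have : ((K - 1 : ℕ) : ℝ) ≤ K := by exact_mod_cast Nat.sub_le _ _
        linarith
    linarith
  have htail := norm_sum_tail hs hK1 m
  have hcp : ∀ n : ℕ, 1 ≤ n → ‖(n : ℂ) ^ (1 - s) / (1 - s)‖ ≤ 1 / |s.im| := by
    intro n hn
    have hn0 : (0 : ℝ) < n := by exact_mod_cast hn
    have hn1 : (1 : ℝ) ≤ n := by exact_mod_cast hn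
    have h2 : ‖(n : ℂ) ^ (1 - s)‖ = (n : ℝ) ^ (1 - s.re) := by
      have := Complex.norm_cpow_eq_rpow_re_of_pos hn0 (1 - s)
      simpa using this
    rw [norm_div, h2]
    refine div_le_div₀ zero_le_one ?_ ht0 h1s
    exact Real.rpow_le_one_of_one_le_of_nonpos hn1 (by linarith)
  have hsm : ‖∑ n ∈ range m, ((K + n : ℕ) : ℂ) ^ (-s)‖ ≤ 2 / |s.im| + 2 := by
    have a1 := hcp K hK1
    have a2 := hcp (K + m) (by omega)
    have a3 : ‖s‖ * (2 / (K : ℝ) - 2 / ((K : ℝ) + m)) ≤ 2 := by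
      have : (0 : ℝ) ≤ 2 / ((K : ℝ) + m) := by positivity
      calc ‖s‖ * (2 / (K : ℝ) - 2 / ((K : ℝ) + m)) ≤ K * (2 / (K : ℝ)) := by
            refine mul_le_mul hsn (by linarith) ?_ hK0.le
            rw [sub_nonneg]
            exact div_le_div_of_nonneg_left (by norm_num) hK0
              (by linarith [(Nat.cast_nonneg m : (0:ℝ) ≤ m)])
        _ = 2 := by field_simp
    set P := ((K + m : ℕ) : ℂ) ^ (1 - s) / (1 - s) with hP
    set Q := (K : ℂ) ^ (1 - s) / (1 - s) with hQ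
    set R := ∑ n ∈ range m, ((K + n : ℕ) : ℂ) ^ (-s) with hR
    have e : R = P - Q - (P - Q - R) := by ring
    rw [e]
    refine (norm_sub_le _ _).trans ?_
    have b1 := norm_sub_le P Q
    have b2 := htail.trans a3
    have b3 : 2 / |s.im| = 1 / |s.im| + 1 / |s.im| := by ring
    rw [b3]
    linarith
  have hfin : (fun m => ‖∑ n ∈ range (m + K), 1 / (n : ℂ) ^ s‖) m ≤
      3 + Real.log (|s.im| + 4) + 2 / |s.im| := by
    simp only
    rw [hsplit]
    refine (norm_add_le _ _).trans ?_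
    linarith
  exact hfin

/-! ### the Euler factors -/

theorem prod_one_add_le (s : Finset ℕ) (hs : ∀ p ∈ s, 2 ≤ p) :
    ∏ p ∈ s, (1 + 1 / (p : ℝ)) ≤ ((s.card : ℝ) + 2) / 2 := by
  induction s using Finset.induction_on_max with
  | empty => simp
  | insert a s hlt ih =>
    have ha : a ∉ s := fun h => lt_irrefl _ (hlt a h)
    rw [prod_insert ha, card_insert_of_notMem ha]
    have ih' := ih fun p hp => hs p (mem_insert_of_mem hp)
    have hcard : s.card + 2 ≤ a := by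
      have hsub : s ⊆ Ico 2 a := fun p hp =>
        mem_Ico.2 ⟨hs p (mem_insert_of_mem hp), hlt p hp⟩
      have h1 := card_le_card hsub
      rw [Nat.card_Ico] at h1
      have h2 := hs a (mem_insert_self _ _)
      omega
    have hcR : (s.card : ℝ) + 2 ≤ a := by exact_mod_cast hcard
    have hc0 : (0 : ℝ) < (s.card : ℝ) + 2 := by positivity
    have h1 : 1 + 1 / (a : ℝ) ≤ 1 + 1 / ((s.card : ℝ) + 2) := by
      have := one_div_le_one_div_of_le hc0 hcR
      linarith
    calc (1 + 1 / (a : ℝ)) * ∏ p ∈ s, (1 + 1 / (p : ℝ))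
        ≤ (1 + 1 / ((s.card : ℝ) + 2)) * (((s.card : ℝ) + 2) / 2) := by
          refine mul_le_mul h1 ih' (prod_nonneg fun p _ => by positivity) (by positivity)
      _ = (((s.card + 1 : ℕ) : ℝ) + 2) / 2 := by
          push_cast
          field_simp
          ring

theorem prod_factors_le (N : ℕ) (hN : 1 ≤ N) :
    ∏ p ∈ N.primeFactors, (1 + 1 / (p : ℝ)) ≤ 1 + Real.log N := by
  have hprime : ∀ p ∈ N.primeFactors, 2 ≤ p := fun p hp =>
    (Nat.prime_of_mem_primeFactors hp).two_le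
  refine (prod_one_add_le _ hprime).trans ?_
  have h1 : 2 ^ N.primeFactors.card ≤ N := by
    calc 2 ^ N.primeFactors.card = ∏ _p ∈ N.primeFactors, 2 := by rw [prod_const]
      _ ≤ ∏ p ∈ N.primeFactors, p := prod_le_prod' hprime
      _ ≤ N := Nat.le_of_dvd (by omega) (Nat.prod_primeFactors_dvd N)
  have h2 : (N.primeFactors.card : ℝ) * Real.log 2 ≤ Real.log N := by
    rw [← Real.log_pow]
    refine Real.log_le_log (by positivity) ?_
    exact_mod_cast h1
  have h3 := Real.log_two_gt_d9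
  have h4 : (0 : ℝ) ≤ N.primeFactors.card := Nat.cast_nonneg _
  nlinarith

theorem one_add_log_le_ell (N : ℕ) (hN : 1 ≤ N) (t : ℝ) : 1 + Real.log N ≤ ell N t := by
  have hN0 : (0 : ℝ) < N := by exact_mod_cast hN
  unfold ell
  rw [Real.log_mul hN0.ne' (by positivity)]
  have h1 : (1 : ℝ) ≤ Real.log (|t| + 3) := by
    rw [Real.le_log_iff_exp_le (by positivity)]
    have := Real.exp_one_lt_d9
    linarith [abs_nonneg t]
  linarith

theorem log_le_ell (N : ℕ) (hN : 1 ≤ N) (t : ℝ) : Real.log (|t| + 3) ≤ ell N t := by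
  have hN1 : (1 : ℝ) ≤ N := by exact_mod_cast hN
  unfold ell
  refine Real.log_le_log (by positivity) ?_
  nlinarith [abs_nonneg t]

/-- SW-3b -/
theorem stTrivB : StTrivB := by
  refine ⟨5, by norm_num, ?_⟩
  intro N _ x t hx0 hx1 ht
  have hN : 1 ≤ N := Nat.one_le_iff_ne_zero.2 (NeZero.ne N)
  set s : ℂ := 1 + x + Complex.I * t with hs
  have hre : s.re = 1 + x := by simp [hs]
  have him : s.im = t := by simp [hs]
  have hs1 : s ≠ 1 := by
    intro h
    have := congrArg Complex.re h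
    rw [hre, Complex.one_re] at this
    linarith
  have h := LFunctionTrivChar_eq_mul_riemannZeta (N := N) hs1
  have h' : LFunction (1 : DirichletCharacter ℂ N) s =
      (∏ p ∈ N.primeFactors, (1 - (p : ℂ) ^ (-s))) * riemannZeta s := h
  rw [h', norm_mul]
  have hprod : ‖∏ p ∈ N.primeFactors, (1 - (p : ℂ) ^ (-s))‖ ≤ ell N t := by
    rw [norm_prod]
    refine le_trans ?_ ((prod_factors_le N hN).trans (one_add_log_le_ell N hN t))
    refine prod_le_prod (fun p _ => norm_nonneg _) fun p hp => ?_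
    have hp2 := (Nat.prime_of_mem_primeFactors hp).two_le
    have hp0 : (0 : ℝ) < p := by exact_mod_cast (by omega : 0 < p)
    have hp1 : (1 : ℝ) ≤ p := by exact_mod_cast (by omega : 1 ≤ p)
    refine (norm_sub_le _ _).trans ?_
    rw [norm_one]
    have e : ‖(p : ℂ) ^ (-s)‖ = (p : ℝ) ^ (-s.re) := by
      have := Complex.norm_cpow_eq_rpow_re_of_pos hp0 (-s)
      simpa using this
    rw [e]
    have : (p : ℝ) ^ (-s.re) ≤ 1 / p := by
      calc (p : ℝ) ^ (-s.re) ≤ (p : ℝ) ^ (-1 : ℝ) :=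
            Real.rpow_le_rpow_of_exponent_le hp1 (by linarith)
        _ = 1 / p := by rw [Real.rpow_neg_one, one_div]
    linarith
  have hz := zeta_bound (s := s) (by linarith) (by linarith) (by rw [him]; exact ht)
  rw [him] at hz
  have hL1 : (1 : ℝ) ≤ ell N t := by
    have h1 := one_add_log_le_ell N hN t
    have h2 : 0 ≤ Real.log N := Real.log_nonneg (by exact_mod_cast hN)
    linarith
  have hlog : Real.log (|t| + 4) ≤ 1 + ell N t := by
    have h1 : Real.log (|t| + 4) ≤ Real.log (Real.exp 1 * (|t| + 3)) := by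
      refine Real.log_le_log (by positivity) ?_
      have := Real.add_one_le_exp (1 : ℝ)
      nlinarith [abs_nonneg t]
    rw [Real.log_mul (Real.exp_pos 1).ne' (by positivity), Real.log_exp] at h1
    have := log_le_ell N hN t
    linarith
  have hzz : ‖riemannZeta s‖ ≤ 5 * (ell N t + 1 / |t|) := by
    refine hz.trans ?_
    have h1 : 0 ≤ 1 / |t| := by positivity
    have h2 : 2 / |t| = 2 * (1 / |t|) := by ring
    rw [h2]
    linarith
  calc _ ≤ ell N t * (5 * (ell N t + 1 / |t|)) :=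
        mul_le_mul hprod hzz (norm_nonneg _) (by linarith)
    _ = _ := by ring

/-- SW-3a -/
theorem stTrivA : StTrivA := by
  intro N _ x t hx0 hx1
  set s : ℂ := 1 + x + Complex.I * t with hs
  have hre : s.re = 1 + x := by simp [hs]
  have hs1 : 1 < s.re := by linarith
  rw [LFunction_eq_LSeries _ hs1]
  have hx1' : (1 : ℝ) < 1 + x := by linarith
  have hsumR : Summable (fun n : ℕ => 1 / (n : ℝ) ^ (1 + x)) :=
    Real.summable_one_div_nat_rpow.2 hx1'
  have hterm : ∀ n : ℕ, ‖LSeries.term (fun n : ℕ => (1 : DirichletCharacter ℂ N) (n : ZMod N)) s n‖ ≤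
      1 / (n : ℝ) ^ (1 + x) := by
    intro n
    rcases Nat.eq_zero_or_pos n with h0 | h0
    · subst h0
      rw [LSeries.term_zero, norm_zero]
      positivity
    · rw [LSeries.norm_term_eq, if_neg h0.ne', hre]
      refine div_le_div_of_nonneg_right (DirichletCharacter.norm_le_one _ _) (by positivity)
  have h1 : ‖LSeries (fun n : ℕ => (1 : DirichletCharacter ℂ N) (n : ZMod N)) s‖ ≤
      ∑' n : ℕ, 1 / (n : ℝ) ^ (1 + x) := tsum_of_norm_bounded hsumR.hasSum hterm
  refine h1.trans ?_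
  have h2 := ZetaAsymptotics.zeta_limit_aux1 hx1'
  have h3 : 0 ≤ ZetaAsymptotics.termTSum (1 + x) := by
    unfold ZetaAsymptotics.termTSum
    exact tsum_nonneg fun n => ZetaAsymptotics.term_nonneg _ _
  have h4 : ∑' n : ℕ, 1 / (n : ℝ) ^ (1 + x) = ∑' n : ℕ, 1 / ((n : ℝ) + 1) ^ (1 + x) := by
    rw [hsumR.tsum_eq_zero_add]
    simp only [Nat.cast_zero, Nat.cast_add, Nat.cast_one]
    rw [Real.zero_rpow (by linarith), div_zero, zero_add]
  rw [h4]
  have h5 : (1 + x) - 1 = x := by ring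
  rw [h5] at h2
  have h6 : 0 ≤ (1 + x) * ZetaAsymptotics.termTSum (1 + x) := by positivity
  have h7 : (1 : ℝ) ≤ 1 / x := by rw [le_div_iff₀ hx0]; linarith
  have h8 : 2 / x = 1 / x + 1 / x := by ring
  rw [h8]
  linarith

end Pool.Agent.Helper16.SW
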