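import Mathlib
import Pool.Agent.Helper6.SW.DefsZ
import Pool.Agent.Helper6.SW.Partial
import Pool.Agent.Helper4.SW.Upper

set_option autoImplicit false

/-! Z-1, Z-2: upper bounds for the zeta function slightly to the left of `Re s = 1`. -/

namespace Pool.Agent.Helper16.SW

open Finset Filter Topology Pool.Agent.Helper6.SW Pool.Agent.Helper4.SW

theorem norm_cpow_sub_rpow {s : ℂ} (hs : 0 < s.re) {a b : ℝ} (ha : 0 < a) (hab : a ≤ b) :
    ‖(a : ℂ) ^ (-s) - (b : ℂ) ^ (-s)‖ ≤ ‖s‖ / s.re * (a ^ (-s.re) - b ^ (-s.re)) := by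
  have hpos : ∀ u ∈ Set.Icc a b, 0 < u := fun u hu => lt_of_lt_of_le ha hu.1
  have hf : ∀ u ∈ Set.Ico a b, HasDerivAt (fun u : ℝ => (a : ℂ) ^ (-s) - (u : ℂ) ^ (-s))
      (s * (u : ℂ) ^ (-s - 1)) u := by
    intro u hu
    have hu0 : 0 < u := hpos u ⟨hu.1, hu.2.le⟩
    have h1 : HasDerivAt (fun u : ℝ => (u : ℂ) ^ (-s)) (-s * (u : ℂ) ^ (-s - 1)) u := by
      have h2 := (hasDerivAt_id (u : ℂ)).cpow_const (c := -s)
        (by rw [Complex.mem_slitPlane_iff]; left; simpa using hu0)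
      have h3 := h2.comp_ofReal
      simpa using h3
    have h4 := h1.const_sub ((a : ℂ) ^ (-s))
    rw [show s * (u : ℂ) ^ (-s - 1) = -(-s * (u : ℂ) ^ (-s - 1)) by ring]
    exact h4
  have hB : ∀ u : ℝ, 0 < u → HasDerivAt (fun u : ℝ => ‖s‖ / s.re * (a ^ (-s.re) - u ^ (-s.re)))
      (‖s‖ * u ^ (-s.re - 1)) u := by
    intro u hu
    have h1 := (Real.hasDerivAt_rpow_const (x := u) (p := -s.re) (Or.inl hu.ne'))
    have h2 := (h1.const_sub (a ^ (-s.re))).const_mul (‖s‖ / s.re)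
    rw [show ‖s‖ * u ^ (-s.re - 1) = ‖s‖ / s.re * -(-s.re * u ^ (-s.re - 1)) by
      field_simp]
    exact h2
  have key := image_norm_le_of_norm_deriv_right_le_deriv_boundary'
    (f := fun u : ℝ => (a : ℂ) ^ (-s) - (u : ℂ) ^ (-s))
    (f' := fun u => s * (u : ℂ) ^ (-s - 1)) (a := a) (b := b)
    (B := fun u : ℝ => ‖s‖ / s.re * (a ^ (-s.re) - u ^ (-s.re)))
    (B' := fun u => ‖s‖ * u ^ (-s.re - 1)) ?_ ?_ ?_ ?_ ?_ ?_ (x := b) ⟨hab, le_rfl⟩
  · exact key
  · intro u hu
    apply ContinuousAt.continuousWithinAt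
    have hu0 := hpos u hu
    apply ContinuousAt.sub continuousAt_const
    exact (Complex.continuousAt_ofReal_cpow_const _ _ (Or.inr hu0.ne'))
  · intro u hu
    exact (hf u hu).hasDerivWithinAt
  · simp
  · intro u hu
    apply ContinuousAt.continuousWithinAt
    exact (hB u (hpos u hu)).continuousAt
  · intro u hu
    exact (hB u (hpos u ⟨hu.1, hu.2.le⟩)).hasDerivWithinAt
  · intro u hu
    have hu0 : 0 < u := hpos u ⟨hu.1, hu.2.le⟩
    rw [norm_mul, Complex.norm_cpow_eq_rpow_re_of_pos hu0]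
    simp

/-- partial sums with the main term -/
noncomputable def PZ (K : ℕ) (s : ℂ) : ℂ :=
  ∑ n ∈ Icc 1 K, (n : ℂ) ^ (-s) + (K : ℂ) ^ (1 - s) / (s - 1)

theorem PZ_step {s : ℂ} (hs : 0 < s.re) (hs1 : s ≠ 1) {K : ℕ} (hK : 1 ≤ K) :
    ‖PZ (K + 1) s - PZ K s‖ ≤
      ‖s‖ / s.re * ((K : ℝ) ^ (-s.re) - ((K + 1 : ℕ) : ℝ) ^ (-s.re)) := by
  have hK0 : (0 : ℝ) < K := by exact_mod_cast hK
  set a : ℝ := (K : ℝ) with ha
  set b : ℝ := ((K + 1 : ℕ) : ℝ) with hb
  have hba : b = a + 1 := by rw [hb, ha]; push_cast; ring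
  have hs1' : -s ≠ -1 := by
    intro h
    exact hs1 (neg_inj.1 h)
  have hsub : s - 1 ≠ 0 := sub_ne_zero.2 hs1
  set C : ℝ := ‖s‖ / s.re * (a ^ (-s.re) - b ^ (-s.re)) with hC
  have key := norm_image_sub_le_of_norm_deriv_le_segment'
    (f := fun y : ℝ => (y : ℂ) * (b : ℂ) ^ (-s) - (y : ℂ) ^ (1 - s) / (1 - s))
    (f' := fun y : ℝ => (b : ℂ) ^ (-s) - (y : ℂ) ^ (-s)) (C := C)
    (a := a) (b := b) ?_ ?_ b (Set.right_mem_Icc.2 (by linarith))
  · rw [show b - a = 1 by linarith, mul_one] at key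
    have e : PZ (K + 1) s - PZ K s = (b : ℂ) * (b : ℂ) ^ (-s) - (b : ℂ) ^ (1 - s) / (1 - s) -
        ((a : ℂ) * (b : ℂ) ^ (-s) - (a : ℂ) ^ (1 - s) / (1 - s)) := by
      unfold PZ
      rw [Finset.sum_Icc_succ_top (by omega)]
      have eb : (b : ℂ) = (a : ℂ) + 1 := by rw [hba]; push_cast; ring
      have eb' : (((K + 1 : ℕ) : ℕ) : ℂ) = (b : ℂ) := by rw [hb]; push_cast; ring
      have ea' : ((K : ℕ) : ℂ) = (a : ℂ) := by rw [ha]; push_cast; ring
      rw [eb', ea']
      have h1 : (1 : ℂ) - s = -(s - 1) := by ring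
      have h2 : (b : ℂ) * (b : ℂ) ^ (-s) = (b : ℂ) ^ (-s) + (a : ℂ) * (b : ℂ) ^ (-s) := by
        nth_rewrite 1 [eb]
        ring
      have h3 : ∀ x : ℂ, x / (1 - s) = -(x / (s - 1)) := by
        intro x
        rw [h1, div_neg]
      rw [h2, h3, h3]
      ring
    rw [e]
    exact key
  · intro y hy
    have hy0 : 0 < y := lt_of_lt_of_le hK0 hy.1
    have h1 := hasDerivAt_ofReal_cpow_const' hy0.ne' hs1'
    rw [show -s + 1 = 1 - s by ring] at h1
    have h2 : HasDerivAt (fun y : ℝ => (y : ℂ) * (b : ℂ) ^ (-s)) ((b : ℂ) ^ (-s)) y := by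
      have := (Complex.ofRealCLM.hasDerivAt (x := y)).mul_const ((b : ℂ) ^ (-s))
      simpa using this
    exact (h2.sub h1).hasDerivWithinAt
  · intro y hy
    have hy0 : 0 < y := lt_of_lt_of_le hK0 hy.1
    rw [norm_sub_rev]
    refine (norm_cpow_sub_rpow hs hy0 hy.2.le).trans ?_
    rw [hC]
    refine mul_le_mul_of_nonneg_left ?_ (by positivity)
    have := Real.rpow_le_rpow_of_nonpos hK0 hy.1 (by linarith : -s.re ≤ 0)
    linarith

theorem PZ_diff {s : ℂ} (hs : 0 < s.re) (hs1 : s ≠ 1) {K M : ℕ} (hK : 1 ≤ K) (hKM : K ≤ M) :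
    ‖PZ M s - PZ K s‖ ≤ ‖s‖ / s.re * ((K : ℝ) ^ (-s.re) - (M : ℝ) ^ (-s.re)) := by
  induction M, hKM using Nat.le_induction with
  | base => simp
  | succ M hM ih =>
    have h := PZ_step hs hs1 (hK.trans hM)
    have e : PZ (M + 1) s - PZ K s = (PZ (M + 1) s - PZ M s) + (PZ M s - PZ K s) := by ring
    rw [e]
    refine (norm_add_le _ _).trans ((add_le_add h ih).trans (le_of_eq ?_))
    ring

theorem PZ_diff' {s : ℂ} (hs : 0 < s.re) (hs1 : s ≠ 1) {K M : ℕ} (hK : 1 ≤ K) (hKM : K ≤ M) :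
    ‖PZ M s - PZ K s‖ ≤ ‖s‖ / s.re * (K : ℝ) ^ (-s.re) := by
  refine (PZ_diff hs hs1 hK hKM).trans (mul_le_mul_of_nonneg_left ?_ (by positivity))
  have : (0 : ℝ) ≤ (M : ℝ) ^ (-s.re) := by positivity
  linarith

/-- approximation of zeta on a convex open subset of the half plane which does not contain 1 and
meets `Re s > 1` -/
theorem zeta_approx_aux (U : Set ℂ) (hU : IsOpen U) (hUc : Convex ℝ U) (hU0 : ∀ s ∈ U, 0 < s.re)
    (hU1 : (1 : ℂ) ∉ U) (z₀ : ℂ) (hz₀ : z₀ ∈ U) (hz₀' : 1 < z₀.re) :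
    ∀ s ∈ U, ∀ K : ℕ, 1 ≤ K →
      ‖riemannZeta s - PZ K s‖ ≤ ‖s‖ / s.re * (K : ℝ) ^ (-s.re) := by
  have hne : ∀ s ∈ U, s ≠ 1 := fun s hs h => hU1 (h ▸ hs)
  have hcauchy : ∀ s ∈ U, CauchySeq (fun M => PZ M s) := by
    intro s hsU
    have hs := hU0 s hsU
    rw [Metric.cauchySeq_iff']
    intro ε hε
    have h1 := (tendsto_rpow_bound (‖s‖ / s.re) s.re hs).eventually (gt_mem_nhds hε)
    obtain ⟨K, hK⟩ := (h1.and (eventually_ge_atTop 1)).exists
    refine ⟨K, fun M hM => ?_⟩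
    rw [dist_eq_norm]
    exact lt_of_le_of_lt (PZ_diff' hs (hne s hsU) hK.2 hM) hK.1
  obtain ⟨P, hP⟩ : ∃ P : ℂ → ℂ, ∀ s ∈ U, Tendsto (fun M => PZ M s) atTop (𝓝 (P s)) := by
    refine ⟨fun s => limUnder atTop (fun M => PZ M s), fun s hs => ?_⟩
    exact (hcauchy s hs).tendsto_limUnder
  have hbound : ∀ s ∈ U, ∀ K : ℕ, 1 ≤ K →
      ‖P s - PZ K s‖ ≤ ‖s‖ / s.re * (K : ℝ) ^ (-s.re) := by
    intro s hs K hK
    have h1 : Tendsto (fun M => ‖PZ M s - PZ K s‖) atTop (𝓝 ‖P s - PZ K s‖) :=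
      ((hP s hs).sub_const _).norm
    refine le_of_tendsto h1 ?_
    filter_upwards [eventually_ge_atTop K] with M hM
    exact PZ_diff' (hU0 s hs) (hne s hs) hK hM
  have hloc : TendstoLocallyUniformlyOn (fun M => PZ M) P atTop U := by
    rw [Metric.tendstoLocallyUniformlyOn_iff]
    intro ε hε z hz
    have hz' : 0 < z.re := hU0 z hz
    refine ⟨{w : ℂ | z.re / 2 < w.re ∧ ‖w‖ < ‖z‖ + 1} ∩ U, ?_, ?_⟩
    · apply mem_nhdsWithin_of_mem_nhds
      apply IsOpen.mem_nhds
      · exact ((isOpen_lt continuous_const Complex.continuous_re).inter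
          (isOpen_lt continuous_norm continuous_const)).inter hU
      · exact ⟨⟨by linarith, by linarith⟩, hz⟩
    · have h1 := (tendsto_rpow_bound ((‖z‖ + 1) / (z.re / 2)) (z.re / 2)
        (by linarith)).eventually (gt_mem_nhds hε)
      filter_upwards [h1, eventually_ge_atTop 1] with K hK1 hK2 w hw
      have hw0 : 0 < w.re := hU0 w hw.2
      rw [dist_eq_norm]
      refine lt_of_le_of_lt (hbound w hw.2 K hK2) (lt_of_le_of_lt ?_ hK1)
      have hKr : (1 : ℝ) ≤ K := by exact_mod_cast hK2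
      apply mul_le_mul _ _ (by positivity) (by positivity)
      · exact div_le_div₀ (by positivity) hw.1.2.le (by linarith) hw.1.1.le
      · exact Real.rpow_le_rpow_of_exponent_le hKr (by linarith [hw.1.1])
  have hPd : DifferentiableOn ℂ P U := by
    apply hloc.differentiableOn _ hU
    filter_upwards [eventually_ge_atTop 1] with M hM1
    unfold PZ
    apply DifferentiableOn.add
    · apply DifferentiableOn.fun_sum
      intro n hn
      have hn0 : (n : ℂ) ≠ 0 := by
        have : n ≠ 0 := by have := (mem_Icc.mp hn).1; omega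
        exact_mod_cast this
      have : NeZero (n : ℂ) := ⟨hn0⟩
      fun_prop
    · have hM0 : (M : ℂ) ≠ 0 := by
        have : M ≠ 0 := by omega
        exact_mod_cast this
      have : NeZero (M : ℂ) := ⟨hM0⟩
      apply DifferentiableOn.div
      · fun_prop
      · fun_prop
      · intro s hs
        exact sub_ne_zero.2 (hne s hs)
  -- agreement on Re s > 1
  have hagree : ∀ s ∈ U, 1 < s.re → P s = riemannZeta s := by
    intro s hsU hs
    have hz := zeta_eq_tsum_one_div_nat_cpow hs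
    have hsum : Summable (fun n : ℕ => 1 / (n : ℂ) ^ s) :=
      Complex.summable_one_div_nat_cpow.2 hs
    have h1 := hsum.hasSum.tendsto_sum_nat
    rw [← hz] at h1
    have h2 := h1.comp (tendsto_add_atTop_nat 1)
    have hs0 : s ≠ 0 := by
      intro h
      rw [h, Complex.zero_re] at hs
      linarith
    have h3 : ∀ M : ℕ, ∑ i ∈ range (M + 1), 1 / (i : ℂ) ^ s = ∑ n ∈ Icc 1 M, (n : ℂ) ^ (-s) := by
      intro M
      rw [Finset.sum_range_succ', Nat.cast_zero, Complex.zero_cpow hs0, div_zero, add_zero]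
      rw [Finset.range_eq_Ico, Finset.sum_Ico_add' (fun i : ℕ => 1 / (i : ℂ) ^ s) 0 M 1]
      have : Ico (0 + 1) (M + 1) = Icc 1 M := by
        ext n
        simp only [mem_Ico, mem_Icc]
        omega
      rw [this]
      apply Finset.sum_congr rfl
      intro n _
      rw [Complex.cpow_neg, one_div]
    have h5 : Tendsto (fun M : ℕ => (M : ℂ) ^ (1 - s) / (s - 1)) atTop (𝓝 0) := by
      have hneg : 0 < s.re - 1 := by linarith
      have h6 : Tendsto (fun M : ℕ => (M : ℂ) ^ (1 - s)) atTop (𝓝 0) := by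
        rw [tendsto_zero_iff_norm_tendsto_zero]
        have h7 := (tendsto_rpow_neg_atTop hneg).comp tendsto_natCast_atTop_atTop
        refine h7.congr' ?_
        filter_upwards [eventually_ge_atTop 1] with M hM
        have hM0 : (0 : ℝ) < M := by exact_mod_cast hM
        have := Complex.norm_cpow_eq_rpow_re_of_pos hM0 (1 - s)
        have e : (1 - s).re = -(s.re - 1) := by simp
        rw [e] at this
        simpa using this.symm
      simpa using h6.div_const (s - 1)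
    have h4 : Tendsto (fun M => PZ M s) atTop (𝓝 (riemannZeta s)) := by
      have h7 : Tendsto (fun M : ℕ => ∑ n ∈ Icc 1 M, (n : ℂ) ^ (-s)) atTop
          (𝓝 (riemannZeta s)) := by
        refine h2.congr (fun M => ?_)
        exact h3 M
      have := h7.add h5
      rw [add_zero] at this
      exact this
    exact tendsto_nhds_unique (hP s hsU) h4
  have hzd : DifferentiableOn ℂ riemannZeta U := fun s hs =>
    (differentiableAt_riemannZeta (hne s hs)).differentiableWithinAt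
  have heq : Set.EqOn P riemannZeta U := by
    apply (hPd.analyticOnNhd hU).eqOn_of_preconnected_of_eventuallyEq
      (hzd.analyticOnNhd hU) hUc.isPreconnected (z₀ := z₀) hz₀
    have hopen1 : IsOpen {s : ℂ | 1 < s.re} := isOpen_lt continuous_const Complex.continuous_re
    filter_upwards [hopen1.mem_nhds hz₀', hU.mem_nhds hz₀] with s hs hsU
    exact hagree s hsU hs
  intro s hs K hK
  rw [← heq hs]
  exact hbound s hs K hK

theorem zeta_approx {s : ℂ} (hs : 0 < s.re) (ht : s.im ≠ 0) {K : ℕ} (hK : 1 ≤ K) :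
    ‖riemannZeta s - PZ K s‖ ≤ ‖s‖ / s.re * (K : ℝ) ^ (-s.re) := by
  rcases lt_or_gt_of_ne ht with h | h
  · refine zeta_approx_aux ({z : ℂ | 0 < z.re} ∩ {z : ℂ | z.im < 0}) ?_ ?_ ?_ ?_
      (2 - Complex.I) ?_ ?_ s ⟨hs, h⟩ K hK
    · exact (isOpen_lt continuous_const Complex.continuous_re).inter
        (isOpen_lt Complex.continuous_im continuous_const)
    · exact (convex_halfSpace_re_gt 0).inter (convex_halfSpace_im_lt 0)
    · exact fun z hz => hz.1
    · rintro ⟨_, h1⟩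
      simp at h1
    · constructor
      · simp
      · simp
    · simp
  · refine zeta_approx_aux ({z : ℂ | 0 < z.re} ∩ {z : ℂ | 0 < z.im}) ?_ ?_ ?_ ?_
      (2 + Complex.I) ?_ ?_ s ⟨hs, h⟩ K hK
    · exact (isOpen_lt continuous_const Complex.continuous_re).inter
        (isOpen_lt continuous_const Complex.continuous_im)
    · exact (convex_halfSpace_re_gt 0).inter (convex_halfSpace_im_gt 0)
    · exact fun z hz => hz.1
    · rintro ⟨_, h1⟩
      simp at h1
    · constructor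
      · simp
      · simp
    · simp

/-- Z-1 -/
theorem stZUp : StZUp := by
  refine ⟨18 * Real.exp 2, by positivity, ?_⟩
  intro s him hs1 hs3
  have he2 := Real.exp_pos (2 : ℝ)
  have hl := one_le_ell 1 s.im
  have hlog : ell 1 s.im = Real.log (|s.im| + 3) := by
    unfold ell
    simp
  set l := ell 1 s.im with hldef
  have hl0 : 0 < l := by linarith
  have hσ : (0.08 : ℝ) ≤ s.re := by
    have : 1 / l ≤ 1 / 1.09 := by gcongr
    have h2 : (1 : ℝ) / 1.09 ≤ 0.92 := by norm_num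
    linarith
  have hσ0 : 0 < s.re := by linarith
  have him0 : s.im ≠ 0 := by
    intro h
    rw [h, abs_zero] at him
    linarith
  set K : ℕ := ⌈|s.im| + 3⌉₊ with hK
  have ht := abs_nonneg s.im
  have hK1 : |s.im| + 3 ≤ (K : ℝ) := Nat.le_ceil _
  have hc2 : (K : ℝ) < |s.im| + 3 + 1 := Nat.ceil_lt_add_one (by linarith)
  have hK2 : (K : ℝ) ≤ (|s.im| + 3) * 2 := by linarith
  have hK3 : (3 : ℝ) ≤ K := by linarith
  have hK0 : (0 : ℝ) < K := by linarith
  have hK1' : 1 ≤ K := by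
    have : (1 : ℝ) ≤ K := by linarith
    exact_mod_cast this
  have hlogK : Real.log K ≤ 2 * l := by
    have h1 : Real.log K ≤ Real.log ((|s.im| + 3) * 2) := Real.log_le_log hK0 hK2
    rw [Real.log_mul (by positivity) (by norm_num)] at h1
    have h2 : Real.log 2 < 0.6931471808 := Real.log_two_lt_d9
    rw [← hlog] at h1
    linarith
  have hlogK0 : 0 ≤ Real.log K := Real.log_nonneg (by linarith)
  have hpow : ∀ n : ℕ, 1 ≤ n → n ≤ K → (n : ℝ) ^ (-s.re) ≤ Real.exp 2 * (n : ℝ)⁻¹ := by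
    intro n hn hnK
    have hn0 : (0 : ℝ) < n := by exact_mod_cast hn
    have h1 : (n : ℝ) ^ (-s.re) = (n : ℝ) ^ (1 - s.re) * (n : ℝ)⁻¹ := by
      rw [show -s.re = (1 - s.re) + (-1) by ring, Real.rpow_add hn0, Real.rpow_neg_one]
    rw [h1]
    gcongr
    rw [Real.rpow_def_of_pos hn0]
    apply Real.exp_le_exp.2
    have h2 : 0 ≤ Real.log n := Real.log_nonneg (by exact_mod_cast hn)
    have h3 : Real.log n ≤ Real.log K := Real.log_le_log hn0 (by exact_mod_cast hnK)
    calc Real.log n * (1 - s.re) ≤ Real.log n * (1 / l) := by gcongr; linarith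
      _ ≤ (2 * l) * (1 / l) := by gcongr; linarith
      _ = 2 := by field_simp
  have hnorm : ∀ (n : ℕ) (z : ℂ), 1 ≤ n → ‖(n : ℂ) ^ z‖ = (n : ℝ) ^ z.re := by
    intro n z hn
    have hn0 : (0 : ℝ) < n := by exact_mod_cast hn
    have := Complex.norm_cpow_eq_rpow_re_of_pos hn0 z
    simpa using this
  have hsum : ‖∑ n ∈ Icc 1 K, (n : ℂ) ^ (-s)‖ ≤ 3 * Real.exp 2 * l := by
    calc ‖∑ n ∈ Icc 1 K, (n : ℂ) ^ (-s)‖
        ≤ ∑ n ∈ Icc 1 K, Real.exp 2 * (n : ℝ)⁻¹ := by
          refine norm_sum_le_of_le _ fun n hn => ?_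
          rw [Finset.mem_Icc] at hn
          rw [hnorm n _ hn.1, Complex.neg_re]
          exact hpow n hn.1 hn.2
      _ = Real.exp 2 * ∑ n ∈ Icc 1 K, (n : ℝ)⁻¹ := by rw [Finset.mul_sum]
      _ ≤ Real.exp 2 * (1 + Real.log K) := by
          gcongr
          have := harmonic_le_one_add_log K
          rw [harmonic_eq_sum_Icc] at this
          push_cast at this
          exact this
      _ ≤ Real.exp 2 * (3 * l) := by gcongr; linarith
      _ = 3 * Real.exp 2 * l := by ring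
  have hmain : ‖(K : ℂ) ^ (1 - s) / (s - 1)‖ ≤ 2 * Real.exp 2 := by
    have h1 : |s.im| ≤ ‖s - 1‖ := by
      have := Complex.abs_im_le_norm (s - 1)
      simpa using this
    have h2 : (1 / 2 : ℝ) ≤ ‖s - 1‖ := him.trans h1
    have h3 : ‖(K : ℂ) ^ (1 - s)‖ ≤ Real.exp 2 := by
      rw [hnorm K _ hK1']
      have h4 := hpow K hK1' le_rfl
      have h5 : (K : ℝ) ^ (1 - s).re = (K : ℝ) ^ (-s.re) * K := by
        rw [show (1 - s).re = -s.re + 1 by simp; ring, Real.rpow_add hK0, Real.rpow_one]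
      rw [h5]
      calc (K : ℝ) ^ (-s.re) * K ≤ (Real.exp 2 * (K : ℝ)⁻¹) * K := by gcongr
        _ = Real.exp 2 := by field_simp
    rw [norm_div, div_le_iff₀ (by linarith)]
    nlinarith
  have htail := zeta_approx hσ0 him0 hK1'
  have htail2 : ‖s‖ / s.re * (K : ℝ) ^ (-s.re) ≤ 13 * Real.exp 2 := by
    have h1 := hpow K hK1' le_rfl
    have h2 : ‖s‖ ≤ K := by
      have h3 := Complex.norm_le_abs_re_add_abs_im s
      have h4 : |s.re| ≤ 3 := by rw [abs_of_pos hσ0]; exact hs3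
      linarith
    calc ‖s‖ / s.re * (K : ℝ) ^ (-s.re) ≤ (K : ℝ) / 0.08 * (Real.exp 2 * (K : ℝ)⁻¹) := by
          gcongr
      _ = Real.exp 2 / 0.08 := by field_simp
      _ ≤ 13 * Real.exp 2 := by
          rw [div_le_iff₀ (by norm_num)]
          linarith
  have e : riemannZeta s = (riemannZeta s - PZ K s) + (∑ n ∈ Icc 1 K, (n : ℂ) ^ (-s) +
      (K : ℂ) ^ (1 - s) / (s - 1)) := by
    unfold PZ
    ring
  rw [e]
  refine (norm_add_le _ _).trans ?_
  have h1 := norm_add_le (∑ n ∈ Icc 1 K, (n : ℂ) ^ (-s)) ((K : ℂ) ^ (1 - s) / (s - 1))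
  have h2 : (0 : ℝ) ≤ Real.exp 2 * (l - 1) := mul_nonneg he2.le (by linarith)
  nlinarith

/-- Z-2 -/
theorem stZDeriv_of (h : StZUp) : StZDeriv := by
  obtain ⟨C, hC, hU⟩ := h
  refine ⟨10 / 3 * C, by positivity, ?_⟩
  intro s him hs1 hs2
  have hl := one_le_ell 1 s.im
  set l := ell 1 s.im with hldef
  have hl0 : 0 < l := by linarith
  set r : ℝ := 1 / (3 * l) with hr
  have hr0 : 0 < r := by positivity
  have hr1 : r ≤ 1 / 3 := by
    rw [hr]
    apply one_div_le_one_div_of_le (by norm_num)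
    linarith
  have himz : ∀ z : ℂ, ‖z - s‖ ≤ r → 1 / 2 ≤ |z.im| := by
    intro z hz
    have him1 : |z.im - s.im| ≤ r := by
      have := Complex.abs_im_le_norm (z - s)
      rw [Complex.sub_im] at this
      exact this.trans hz
    have := abs_sub_abs_le_abs_sub s.im z.im
    rw [abs_sub_comm] at this
    linarith
  have key : ∀ z ∈ Metric.sphere s r, ‖riemannZeta z‖ ≤ C * (10 / 9 * l) := by
    intro z hz
    rw [mem_sphere_iff_norm] at hz
    have him1 : |z.im - s.im| ≤ r := by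
      have := Complex.abs_im_le_norm (z - s)
      rwa [hz, Complex.sub_im] at this
    have hre : |z.re - s.re| ≤ r := by
      have := Complex.abs_re_le_norm (z - s)
      rwa [hz, Complex.sub_re] at this
    have hlz : ell 1 z.im ≤ 10 / 9 * l := ell_le_of_near 1 (him1.trans hr1)
    have hlz0 := ell_pos 1 z.im
    have h1 : 1 - 1 / ell 1 z.im ≤ z.re := by
      have h2 : 1 / (10 / 9 * l) ≤ 1 / ell 1 z.im := one_div_le_one_div_of_le hlz0 hlz
      have h3 : 1 / (10 / 9 * l) = 27 / 10 * r := by rw [hr]; field_simp; norm_num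
      have h4 := (abs_le.1 hre).1
      have h5 : 1 - r ≤ s.re := hs1
      linarith
    have h2 : z.re ≤ 3 := by
      have h4 := (abs_le.1 hre).2
      linarith
    exact (hU z (himz z hz.le) h1 h2).trans (by gcongr)
  have hd : DiffContOnCl ℂ riemannZeta (Metric.ball s r) := by
    apply DifferentiableOn.diffContOnCl
    rw [closure_ball s hr0.ne']
    intro z hz
    rw [mem_closedBall_iff_norm] at hz
    have h1 := himz z hz
    have hz1 : z ≠ 1 := by
      intro h
      rw [h, Complex.one_im, abs_zero] at h1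
      linarith
    exact (differentiableAt_riemannZeta hz1).differentiableWithinAt
  have h1 := Complex.norm_deriv_le_of_forall_mem_sphere_norm_le hr0 hd key
  refine h1.trans (le_of_eq ?_)
  rw [hr]
  field_simp
  ring

/-- Z-2 -/
theorem stZDeriv : StZDeriv := stZDeriv_of stZUp

end Pool.Agent.Helper16.SW
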