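import Mathlib
import Pool.Agent.Helper6.SW.DefsZ

set_option autoImplicit false

/-! Z-5: derivatives of `-ζ'/ζ - ζ` for bounded imaginary part. -/

namespace Pool.Agent.Helper16.SW

open Filter Topology Pool.Agent.Helper6.SW

/-- the continuation of `-ζ'/ζ - ζ` -/
noncomputable def gZ (s : ℂ) : ℂ := - deriv riemannZeta₁ s / riemannZeta₁ s - riemannZeta₀ s

theorem zeta1_ne_zero {s : ℂ} (hs : 1 ≤ s.re) : riemannZeta₁ s ≠ 0 := by
  by_cases h : s = 1
  · rw [h, riemannZeta₁_one]
    exact one_ne_zero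
  · intro h0
    have h1 := riemannZeta_eq_inv_sub_mul h
    rw [h0, mul_zero] at h1
    exact riemannZeta_ne_zero_of_one_le_re hs h1

theorem EZ_eq_gZ {s : ℂ} (hs : 1 < s.re) : EZ s = gZ s := by
  have h : s ≠ 1 := by
    rintro rfl
    simp at hs
  have hsub : s - 1 ≠ 0 := sub_ne_zero.2 h
  have h1 := zeta1_ne_zero hs.le
  have e1 := riemannZeta_eq_inv_sub_mul h
  have e2 := deriv_riemannZeta_eq_neg_inv_sub_sq_mul_add h
  have e3 := riemannZeta_eq_inv_sub_add h
  unfold EZ gZ
  have e4 : - deriv riemannZeta s / riemannZeta s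
      = (s - 1)⁻¹ - deriv riemannZeta₁ s / riemannZeta₁ s := by
    rw [e2, e1]
    field_simp
    ring
  rw [e4, e3]
  ring

theorem isOpen_ne : IsOpen {s : ℂ | riemannZeta₁ s ≠ 0} :=
  isOpen_compl_singleton.preimage differentiable_riemannZeta₁.continuous

theorem gZ_analytic : AnalyticOnNhd ℂ gZ {s : ℂ | riemannZeta₁ s ≠ 0} := by
  have hd : DifferentiableOn ℂ gZ {s : ℂ | riemannZeta₁ s ≠ 0} := by
    unfold gZ
    apply DifferentiableOn.sub
    · apply DifferentiableOn.div
      · exact differentiable_riemannZeta₁.deriv.neg.differentiableOn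
      · exact differentiable_riemannZeta₁.differentiableOn
      · exact fun s hs => hs
    · exact differentiable_riemannZeta₀.differentiableOn
  exact hd.analyticOnNhd isOpen_ne

/-- Z-5 -/
theorem stZCompact : StZCompact := by
  intro k
  set K : Set ℂ := Set.Icc (1 : ℝ) (3 / 2) ×ℂ Set.Icc (-2 : ℝ) 2 with hK
  have hKc : IsCompact K := by
    rw [hK]
    exact isCompact_Icc.reProdIm isCompact_Icc
  have hKU : K ⊆ {s : ℂ | riemannZeta₁ s ≠ 0} := by
    intro s hs
    exact zeta1_ne_zero hs.1.1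
  have hcont : ContinuousOn (iteratedDeriv k gZ) K := by
    rw [iteratedDeriv_eq_iterate]
    exact ((gZ_analytic.iterated_deriv k).continuousOn).mono hKU
  obtain ⟨C, hC⟩ := hKc.exists_bound_of_continuousOn hcont
  refine ⟨C, fun x t hx0 hx1 ht => ?_⟩
  set s : ℂ := 1 + x + Complex.I * t with hs
  have hre : s.re = 1 + x := by simp [hs]
  have him : s.im = t := by simp [hs]
  have hmem : s ∈ K := by
    refine ⟨?_, ?_⟩
    · show s.re ∈ Set.Icc (1 : ℝ) (3 / 2)
      rw [hre]
      exact ⟨by linarith, by linarith⟩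
    · show s.im ∈ Set.Icc (-2 : ℝ) 2
      rw [him]
      exact abs_le.1 ht
  have hev : EZ =ᶠ[𝓝 s] gZ := by
    have hopen : IsOpen {z : ℂ | 1 < z.re} := isOpen_lt continuous_const Complex.continuous_re
    filter_upwards [hopen.mem_nhds (by show 1 < s.re; rw [hre]; linarith)] with z hz
    exact EZ_eq_gZ hz
  rw [hev.iteratedDeriv_eq k]
  exact hC s hmem

end Pool.Agent.Helper16.SW
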