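import Mathlib
import Pool.Agent.Helper11.ER.SieveLower
import Pool.Agent.Helper6.SW.Defs

set_option autoImplicit false

/-! The Brun-Hooley minorant with general densities. -/

namespace Pool.Agent.Helper16.SW

open Finset Helper13.Om Pool.Agent.Helper6.ER.SL Pool.Agent.Helper6.SW

/-- the truncation error of a block, block sum at most 8 -/
theorem top_le8 (P : Finset ℕ) (g : ℕ → ℝ) (h0 : ∀ q ∈ P, 0 ≤ g q) (h1 : ∀ q ∈ P, g q ≤ 1)
    (hG : ∑ q ∈ P, g q ≤ 8) (c : ℕ) (hc : 3 ≤ c) :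
    Atr (2 * c) P g - Atr (2 * c + 1) P g ≤
      2 * (8 ^ (2 * c + 1) / ((2 * c + 1).factorial : ℝ)) := by
  have hG0 : 0 ≤ ∑ q ∈ P, g q := sum_nonneg h0
  have e1 := Atr_even_le P g h0 h1 c
  have e2 := (Atr_bonf P g h0 h1 (2 * c + 1)).2
  rw [pow_succ (-1 : ℝ), pow_mul, neg_one_sq, one_pow, one_mul] at e2
  have hn4 : (8 : ℝ) ≤ ((2 * c + 1 : ℕ) : ℝ) + 1 := by
    have : 8 ≤ 2 * c + 1 + 1 := by omega
    exact_mod_cast this
  generalize 2 * c + 1 = n at e1 e2 hn4 ⊢
  have h3 : (∑ q ∈ P, g q) ^ n / (n.factorial : ℝ) ≤ 8 ^ n / n.factorial := by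
    gcongr
  have h4 : (∑ q ∈ P, g q) ^ (n + 1) / ((n + 1).factorial : ℝ) ≤ 8 ^ n / n.factorial := by
    have h5 : (∑ q ∈ P, g q) ^ (n + 1) / ((n + 1).factorial : ℝ) ≤
        8 ^ (n + 1) / (n + 1).factorial := by gcongr
    refine h5.trans ?_
    rw [Nat.factorial_succ, pow_succ]
    have hnf : (0 : ℝ) < n.factorial := by positivity
    rw [div_le_div_iff₀ (by positivity) hnf]
    push_cast
    have : 0 ≤ (8 : ℝ) ^ n * n.factorial := by positivity
    nlinarith
  linarith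

/-- the main term of the minorant -/
theorem main_ge8 (b : ℕ) (hb : 1 + 128 * Real.exp 24 ≤ b) (J : ℕ) (V U T : ℕ → ℝ)
    (hV : ∀ j, Real.exp (-16) ≤ V j) (hUV : ∀ j, V j ≤ U j)
    (hT : ∀ j, T j ≤ 2 * (8 ^ (2 * (b + j) + 1) / ((2 * (b + j) + 1).factorial : ℝ))) :
    (1 / 2) * ∏ j ∈ range J, V j ≤
      ∏ j ∈ range J, U j - ∑ j ∈ range J, ∏ i ∈ range J, (if i = j then T j else U i) := by
  have hb1 : 1 ≤ b := by
    have : (1 : ℝ) ≤ b := le_trans (by nlinarith [Real.exp_pos 24]) hb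
    exact_mod_cast this
  have hbR : (1 : ℝ) ≤ b := by exact_mod_cast hb1
  have hU0 : ∀ j, 0 < U j := fun j => (Real.exp_pos _).trans_le ((hV j).trans (hUV j))
  have hterm : ∀ j ∈ range J, ∏ i ∈ range J, (if i = j then T j else U i) ≤
      (Real.exp 16 * (2 * (8 ^ (2 * (b + j) + 1) / ((2 * (b + j) + 1).factorial : ℝ)))) *
        ∏ i ∈ range J, U i := by
    intro j hj
    have e1 : ∏ i ∈ range J, (if i = j then T j else U i) =
        T j * ∏ i ∈ (range J).erase j, U i := by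
      rw [← mul_prod_erase (range J) _ hj, if_pos rfl]
      congr 1
      refine prod_congr rfl fun i hi => ?_
      rw [if_neg (ne_of_mem_erase hi)]
    have e2 : ∏ i ∈ range J, U i = U j * ∏ i ∈ (range J).erase j, U i :=
      (mul_prod_erase (range J) _ hj).symm
    rw [e1, e2]
    have hP0 : 0 ≤ ∏ i ∈ (range J).erase j, U i := prod_nonneg fun i _ => (hU0 i).le
    have h1 : 1 ≤ Real.exp 16 * U j := by
      have := mul_le_mul_of_nonneg_left ((hV j).trans (hUV j)) (Real.exp_pos 16).le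
      rwa [← Real.exp_add, add_neg_cancel, Real.exp_zero] at this
    have h2 := hT j
    have h0 : (0 : ℝ) ≤ 2 * (8 ^ (2 * (b + j) + 1) / ((2 * (b + j) + 1).factorial : ℝ)) := by
      positivity
    generalize 2 * (8 ^ (2 * (b + j) + 1) / ((2 * (b + j) + 1).factorial : ℝ)) = w at h0 h2 ⊢
    calc T j * ∏ i ∈ (range J).erase j, U i
        ≤ w * ∏ i ∈ (range J).erase j, U i := mul_le_mul_of_nonneg_right h2 hP0
      _ ≤ (w * ∏ i ∈ (range J).erase j, U i) * (Real.exp 16 * U j) :=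
          le_mul_of_one_le_right (mul_nonneg h0 hP0) h1
      _ = _ := by ring
  have hPU0 : 0 ≤ ∏ i ∈ range J, U i := prod_nonneg fun i _ => (hU0 i).le
  have hsum : ∑ j ∈ range J, ∏ i ∈ range J, (if i = j then T j else U i) ≤
      (1 / 2) * ∏ i ∈ range J, U i := by
    refine (sum_le_sum hterm).trans ?_
    rw [← sum_mul]
    refine mul_le_mul_of_nonneg_right ?_ hPU0
    have h1 := tau_sum 8 (by norm_num) b hb1 J
    have e : ∑ j ∈ range J, Real.exp 16 *
        (2 * ((8 : ℝ) ^ (2 * (b + j) + 1) / (2 * (b + j) + 1).factorial)) =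
        2 * Real.exp 16 *
          ∑ j ∈ range J, (8 : ℝ) ^ (2 * (b + j) + 1) / (2 * (b + j) + 1).factorial := by
      rw [mul_sum]
      refine sum_congr rfl fun j _ => ?_
      rw [← mul_assoc, mul_comm (Real.exp 16) 2]
    rw [e]
    have h2 := mul_le_mul_of_nonneg_left h1 (by positivity : 0 ≤ 2 * Real.exp 16)
    refine h2.trans ?_
    have h3 : Real.exp 24 = Real.exp 16 * Real.exp 8 := by rw [← Real.exp_add]; norm_num
    have h4 : 2 * Real.exp 16 * (8 ^ 2 * Real.exp 8 / (2 * b)) = 64 * Real.exp 24 / b := by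
      rw [h3]
      field_simp
      ring
    rw [h4, div_le_iff₀ (by linarith)]
    linarith
  have hVU : ∏ j ∈ range J, V j ≤ ∏ i ∈ range J, U i :=
    prod_le_prod (fun j _ => (Real.exp_pos _).le.trans (hV j)) fun j _ => hUV j
  linarith

/-- `1 - g >= exp (-2g)` on `[0, 1/2]` -/
theorem exp_le_one_sub {g : ℝ} (h0 : 0 ≤ g) (h1 : g ≤ 1 / 2) : Real.exp (-(2 * g)) ≤ 1 - g := by
  have h2 : 0 < 1 - g := by linarith
  rw [Real.exp_neg, inv_le_comm₀ (Real.exp_pos _) h2]
  have h3 : (1 - g)⁻¹ ≤ 1 + 2 * g := by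
    rw [inv_le_iff_one_le_mul₀ h2]
    nlinarith
  have h4 := Real.add_one_le_exp (2 * g)
  linarith

/-- S-2: the Brun-Hooley minorant -/
theorem stMinorant : StMinorant := by
  classical
  obtain ⟨b, hb⟩ := exists_nat_ge (1 + 128 * Real.exp 24)
  have hb3 : 3 ≤ b := by
    have : (3 : ℝ) ≤ b := le_trans (by nlinarith [Real.add_one_le_exp (24 : ℝ)]) hb
    exact_mod_cast this
  have hb1 : 1 ≤ b := by omega
  refine ⟨20 * (b + 1), by omega, ?_⟩
  intro E Q g₀ hQ hg
  set blk : ℕ → ℕ := fun q => Nat.log 2 (E / Nat.log 2 q) with hblk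
  set B : ℕ → Finset ℕ := fun j => Q.filter (fun q => blk q = j) with hB
  set J := E + 1 with hJ
  have hBQ : ∀ j, B j ⊆ Q := fun j => filter_subset _ _
  have hBd : ∀ i j, i ≠ j → Disjoint (B i) (B j) := by
    intro i j hij
    rw [disjoint_left]
    intro q hq hq'
    rw [hB] at hq hq'
    simp only [mem_filter] at hq hq'
    exact hij (hq.2.symm.trans hq'.2)
  have hblkJ : ∀ q ∈ Q, blk q ∈ range J := by
    intro q _
    rw [mem_range, hblk, hJ]
    have h1 : Nat.log 2 (E / Nat.log 2 q) ≤ E / Nat.log 2 q := Nat.log_le_self _ _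
    have h2 : E / Nat.log 2 q ≤ E := Nat.div_le_self _ _
    simp only
    omega
  have hbB : ∀ j, ∀ q ∈ B j, 2 ^ j * Nat.log 2 q ≤ E ∧ E < 2 ^ (j + 1) * Nat.log 2 q := by
    intro j q hq
    rw [hB] at hq
    simp only [mem_filter] at hq
    obtain ⟨hqP, hqj⟩ := hq
    have he := log2_pos_of_prime (hQ q hqP).1
    have heE := (hQ q hqP).2
    have hdiv : E / Nat.log 2 q ≠ 0 := by
      have := Nat.div_pos heE (by omega)
      omega
    constructor
    · have h1 := Nat.pow_log_le_self 2 hdiv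
      rw [hblk] at hqj
      simp only at hqj
      rw [hqj, Nat.le_div_iff_mul_le (by omega)] at h1
      exact h1
    · have h1 := Nat.lt_pow_succ_log_self one_lt_two (E / Nat.log 2 q)
      rw [hblk] at hqj
      simp only at hqj
      rw [hqj, Nat.div_lt_iff_lt_mul (by omega)] at h1
      exact h1
  have hunion : (range J).biUnion B = Q := by
    ext q
    rw [mem_biUnion]
    constructor
    · rintro ⟨j, -, hq⟩
      exact hBQ j hq
    · intro hq
      exact ⟨blk q, hblkJ q hq, by rw [hB]; exact mem_filter.2 ⟨hq, rfl⟩⟩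
  have hprodQ : ∀ f : ℕ → ℝ, ∏ q ∈ Q, f q = ∏ j ∈ range J, ∏ q ∈ B j, f q := by
    intro f
    conv_lhs => rw [← hunion]
    exact prod_biUnion fun i _ j _ hij => hBd i j hij
  -- size of the primes in a block
  have hsize : ∀ j, ∀ q ∈ B j, q ≤ 2 ^ (2 * (E / 2 ^ j)) := by
    intro j q hq
    have h1 := (hbB j q hq).1
    have h2 := log2_pos_of_prime (hQ q (hBQ j hq)).1
    have h3 : Nat.log 2 q ≤ E / 2 ^ j := by
      rw [Nat.le_div_iff_mul_le (by positivity), mul_comm]; exact h1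
    exact (lt_pow_log2 q).le.trans (Nat.pow_le_pow_right (by norm_num) (by omega))
  -- the functionals
  set r : ℕ → ℕ := fun j => 2 * (b + j) with hr
  set U : ℕ → (ℕ → ℝ) → ℝ := fun j => Atr (r j) (B j) with hU
  set T : ℕ → (ℕ → ℝ) → ℝ := fun j g => Atr (r j) (B j) g - Atr (r j + 1) (B j) g with hT
  set N : ℕ → ℕ := fun j => 2 ^ (10 * (E / 2 ^ j) * (b + j)) with hN
  have hexp : ∀ j, 2 * (E / 2 ^ j) * (r j + 1) ≤ 10 * (E / 2 ^ j) * (b + j) := by
    intro j
    have : r j + 1 ≤ 5 * (b + j) := by rw [hr]; simp only; omega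
    calc 2 * (E / 2 ^ j) * (r j + 1) ≤ 2 * (E / 2 ^ j) * (5 * (b + j)) :=
          Nat.mul_le_mul_left _ this
      _ = _ := by ring
  have hLU : ∀ j, Lev (B j) 1 (N j) (U j) := fun j =>
    (Lev.atr (B j) (r j) (2 * (E / 2 ^ j)) (r j + 1) (Nat.le_succ _) (hsize j)).mono
      (Nat.pow_le_pow_right (by norm_num) (hexp j))
  have hLT : ∀ j, Lev (B j) 1 (N j) (T j) := fun j =>
    (Lev.top (B j) (r j) (2 * (E / 2 ^ j)) (hsize j)).mono
      (Nat.pow_le_pow_right (by norm_num) (hexp j))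
  have hNprod : ∏ j ∈ range J, N j ≤ 2 ^ (20 * (b + 1) * (E + 1)) := by
    rw [hN]
    simp only
    rw [prod_pow_eq_pow_sum]
    refine Nat.pow_le_pow_right (by norm_num) ((exponent_sum_nat E b J).trans ?_)
    nlinarith
  have hLev : Lev Q (1 + J) (2 ^ (20 * (b + 1) * (E + 1))) (fun g => (∏ j ∈ range J, U j g) -
      ∑ j ∈ range J, ∏ i ∈ range J, (if i = j then T j g else U i g)) := by
    refine Lev.sub ?_ ?_
    · have := Lev.prod B hBd N U hLU J
      rw [hunion] at this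
      exact this.mono hNprod
    · refine Lev.sum _ J fun j => ?_
      have := Lev.prod B hBd N (fun i g => if i = j then T j g else U i g) (fun i => by
        by_cases hij : i = j
        · subst hij
          simp only [if_true]
          exact hLT i
        · simp only [if_neg hij]
          exact hLU i) J
      rw [hunion] at this
      exact this.mono hNprod
  obtain ⟨l, hl1, hl2, hl3⟩ := hLev
  -- the minorant property
  have hminor : ∀ g : ℕ → ℝ, (∀ q ∈ Q, 0 ≤ g q) → (∀ q ∈ Q, g q ≤ 1) →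
      ∑ s ∈ Q.powerset, l s * ∏ q ∈ s, g q ≤ ∏ q ∈ Q, (1 - g q) := by
    intro g hg0 hg1
    rw [← hl3 g, hprodQ]
    refine le_trans ?_ (tele (range J) (fun j => ∏ q ∈ B j, (1 - g q)) (fun j => U j g) ?_ ?_)
    · refine sub_le_sub_left (sum_le_sum fun j _ => ?_) _
      refine prod_le_prod (fun i _ => ?_) fun i _ => ?_
      · have h1 := Atr_even_ge (B i) g (fun q hq => hg0 q (hBQ i hq)) (fun q hq => hg1 q (hBQ i hq))
          (b + i)
        have h2 : 0 ≤ ∏ q ∈ B i, (1 - g q) :=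
          prod_nonneg fun q hq => by linarith [hg1 q (hBQ i hq)]
        have h3 := Atr_even_ge (B j) g (fun q hq => hg0 q (hBQ j hq)) (fun q hq => hg1 q (hBQ j hq))
          (b + j)
        split_ifs
        · exact sub_nonneg.2 h3
        · exact h2.trans h1
      · split_ifs with hij
        · have h4 := (Atr_bonf (B j) g (fun q hq => hg0 q (hBQ j hq))
            (fun q hq => hg1 q (hBQ j hq)) (2 * (b + j) + 1)).1
          rw [pow_succ, pow_mul, neg_one_sq, one_pow, one_mul] at h4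
          show Atr (2 * (b + j)) (B j) g - ∏ q ∈ B j, (1 - g q) ≤
            Atr (2 * (b + j)) (B j) g - Atr (2 * (b + j) + 1) (B j) g
          linarith
        · exact le_rfl
    · intro j _
      exact prod_nonneg fun q hq => by linarith [hg1 q (hBQ j hq)]
    · intro j _
      exact Atr_even_ge (B j) g (fun q hq => hg0 q (hBQ j hq)) (fun q hq => hg1 q (hBQ j hq)) (b + j)
  -- the main term
  have hg00 : ∀ q ∈ Q, 0 ≤ g₀ q := fun q hq => (hg q hq).1
  have hg01 : ∀ q ∈ Q, g₀ q ≤ 1 := fun q hq => (hg q hq).2.1.trans (by norm_num)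
  have hblock : ∀ j, ∑ q ∈ B j, g₀ q ≤ 8 := by
    intro j
    have h2 := block_sum (B j) (fun q hq => (hQ q (hBQ j hq)).1) E j (hbB j)
    have h3 : ∑ q ∈ B j, g₀ q ≤ 2 * ∑ q ∈ B j, (1 : ℝ) / q := by
      rw [mul_sum]
      refine sum_le_sum fun q hq => ?_
      have := (hg q (hBQ j hq)).2.2
      rw [mul_one_div]
      exact this
    linarith
  have hmain : (1 / 2) * ∏ q ∈ Q, (1 - g₀ q) ≤ ∑ s ∈ Q.powerset, l s * ∏ q ∈ s, g₀ q := by
    rw [← hl3 g₀]
    beta_reduce
    have hV : ∀ j, Real.exp (-16) ≤ ∏ q ∈ B j, (1 - g₀ q) := by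
      intro j
      have h1 : Real.exp (-(2 * ∑ q ∈ B j, g₀ q)) ≤ ∏ q ∈ B j, (1 - g₀ q) := by
        rw [mul_sum, ← sum_neg_distrib, Real.exp_sum]
        exact prod_le_prod (fun q _ => (Real.exp_pos _).le) fun q hq =>
          exp_le_one_sub (hg q (hBQ j hq)).1 (hg q (hBQ j hq)).2.1
      refine le_trans (Real.exp_le_exp.2 ?_) h1
      linarith [hblock j]
    have hUV : ∀ j, ∏ q ∈ B j, (1 - g₀ q) ≤ U j g₀ := fun j =>
      Atr_even_ge (B j) g₀ (fun q hq => hg00 q (hBQ j hq)) (fun q hq => hg01 q (hBQ j hq)) (b + j)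
    have hTle : ∀ j, T j g₀ ≤ 2 * (8 ^ (2 * (b + j) + 1) / ((2 * (b + j) + 1).factorial : ℝ)) :=
      fun j => top_le8 (B j) g₀ (fun q hq => hg00 q (hBQ j hq)) (fun q hq => hg01 q (hBQ j hq))
        (hblock j) (b + j) (hb3.trans (Nat.le_add_right _ _))
    have h := main_ge8 b hb J (fun j => ∏ q ∈ B j, (1 - g₀ q)) (fun j => U j g₀)
      (fun j => T j g₀) hV hUV hTle
    rw [← hprodQ (fun q => 1 - g₀ q)] at h
    exact h
  refine ⟨l, fun s => (hl1 s).trans (le_of_eq ?_), hl2, hminor, hmain⟩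
  rw [hJ]
  push_cast
  ring

end Pool.Agent.Helper16.SW
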