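import Mathlib
import Pool.Agent.Helper6.SW.Defs

set_option autoImplicit false

/-! The coefficients of `ζ(s) L(s, ψ₁) L(s, ψ₂) L(s, ψ₁ψ₂)` are nonnegative. -/

namespace Pool.Agent.Helper16.SW

open Finset DirichletCharacter ArithmeticFunction Pool.Agent.Helper6.SW
open scoped ComplexOrder

variable {N : ℕ}

/-- the arithmetic function of a character -/
noncomputable def Af (ψ : DirichletCharacter ℂ N) : ArithmeticFunction ℂ :=
  toArithmeticFunction (ψ ·)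

theorem Af_apply (ψ : DirichletCharacter ℂ N) {n : ℕ} (hn : n ≠ 0) :
    Af ψ n = ψ (n : ZMod N) := (ψ.apply_eq_toArithmeticFunction_apply hn).symm

/-- the coefficients -/
noncomputable def quad (ψ₁ ψ₂ : DirichletCharacter ℂ N) : ArithmeticFunction ℂ :=
  zetaMul ψ₁ * (Af ψ₂ * Af (ψ₁ * ψ₂))

theorem quad_comm (ψ₁ ψ₂ : DirichletCharacter ℂ N) : quad ψ₁ ψ₂ = quad ψ₂ ψ₁ := by
  unfold quad zetaMul
  rw [mul_comm ψ₂ ψ₁]
  change (zeta : ArithmeticFunction ℂ) * Af ψ₁ * _ = (zeta : ArithmeticFunction ℂ) * Af ψ₂ * _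
  ring

theorem twist_mul (ψ₁ ψ₂ : DirichletCharacter ℂ N) {n : ℕ} (_hn : n ≠ 0) :
    (Af ψ₂ * Af (ψ₁ * ψ₂)) n = ψ₂ (n : ZMod N) * zetaMul ψ₁ n := by
  have h : zetaMul ψ₁ n = ∑ x ∈ n.divisorsAntidiagonal, ψ₁ (x.2 : ZMod N) := by
    unfold zetaMul
    rw [ArithmeticFunction.mul_apply]
    refine sum_congr rfl fun x hx => ?_
    have hx1 : x.1 ≠ 0 := (Nat.ne_zero_of_mem_divisorsAntidiagonal hx).1
    have hx2 : x.2 ≠ 0 := (Nat.ne_zero_of_mem_divisorsAntidiagonal hx).2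
    rw [natCoe_apply, ArithmeticFunction.zeta_apply, if_neg hx1, Nat.cast_one, one_mul]
    exact Af_apply ψ₁ hx2
  rw [h, ArithmeticFunction.mul_apply, mul_sum]
  refine sum_congr rfl fun x hx => ?_
  have hx1 : x.1 ≠ 0 := (Nat.ne_zero_of_mem_divisorsAntidiagonal hx).1
  have hx2 : x.2 ≠ 0 := (Nat.ne_zero_of_mem_divisorsAntidiagonal hx).2
  have hx3 : x.1 * x.2 = n := (Nat.mem_divisorsAntidiagonal.1 hx).1
  rw [Af_apply _ hx1, Af_apply _ hx2, MulChar.mul_apply, ← hx3]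
  push_cast
  rw [map_mul]
  ring

theorem zetaMul_pow (ψ : DirichletCharacter ℂ N) {p : ℕ} (hp : p.Prime) (k : ℕ) :
    zetaMul ψ (p ^ k) = ∑ i ∈ range (k + 1), ψ (p : ZMod N) ^ i := by
  have h : zetaMul ψ (p ^ k) = ∑ d ∈ (p ^ k).divisors, ψ (d : ZMod N) := by
    unfold zetaMul
    rw [coe_zeta_mul_apply]
    refine sum_congr rfl fun d hd => ?_
    exact Af_apply ψ (Nat.pos_of_mem_divisors hd).ne'
  rw [h, Nat.sum_divisors_prime_pow hp]
  refine sum_congr rfl fun i _ => ?_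
  push_cast
  rw [map_pow]

/-- the terms are nonnegative at prime powers if `ψ₂ p` is not `-1` or `ψ₁ p = -1` -/
theorem quad_pp_aux {ψ₁ ψ₂ : DirichletCharacter ℂ N} (h₁ : ψ₁ ^ 2 = 1)
    {p : ℕ} (hp : p.Prime) (k : ℕ)
    (h : 0 ≤ ψ₂ (p : ZMod N) ∨ (ψ₂ (p : ZMod N) = -1 ∧ ψ₁ (p : ZMod N) = -1)) :
    0 ≤ quad ψ₁ ψ₂ (p ^ k) := by
  unfold quad
  rw [ArithmeticFunction.mul_apply]
  refine sum_nonneg fun x hx => ?_
  have hx2 : x.2 ≠ 0 := (Nat.ne_zero_of_mem_divisorsAntidiagonal hx).2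
  have hx3 : x.1 * x.2 = p ^ k := (Nat.mem_divisorsAntidiagonal.1 hx).1
  rw [twist_mul ψ₁ ψ₂ hx2]
  refine mul_nonneg (zetaMul_nonneg h₁ _) ?_
  obtain ⟨j, -, hj⟩ := (Nat.dvd_prime_pow hp).1 (hx3 ▸ dvd_mul_left x.2 x.1)
  rw [hj, zetaMul_pow ψ₁ hp]
  push_cast
  rw [map_pow]
  rcases h with h | ⟨h2, h1⟩
  · refine mul_nonneg (pow_nonneg h _) ?_
    rw [← zetaMul_pow ψ₁ hp]
    exact zetaMul_nonneg h₁ _
  · rw [h1, h2, neg_one_geom_sum]
    split_ifs with he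
    · simp
    · have : Even j := by
        rcases Nat.even_or_odd j with hh | hh
        · exact hh
        · exact absurd hh.add_one he
      rw [this.neg_one_pow, one_mul]
      exact zero_le_one

theorem quad_nonneg {ψ₁ ψ₂ : DirichletCharacter ℂ N} (h₁ : ψ₁ ^ 2 = 1) (h₂ : ψ₂ ^ 2 = 1)
    (n : ℕ) : 0 ≤ quad ψ₁ ψ₂ n := by
  have hmul : (quad ψ₁ ψ₂).IsMultiplicative :=
    (isMultiplicative_zetaMul ψ₁).mul
      ((isMultiplicative_toArithmeticFunction ψ₂).mul (isMultiplicative_toArithmeticFunction _))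
  rcases eq_or_ne n 0 with rfl | hn
  · rw [ArithmeticFunction.map_zero]
  · rw [hmul.multiplicative_factorization _ hn]
    refine prod_nonneg fun p hp => ?_
    have hpp : p.Prime := Nat.prime_of_mem_primeFactors hp
    rcases MulChar.isQuadratic_iff_sq_eq_one.mpr h₂ (p : ZMod N) with h | h | h
    · exact quad_pp_aux h₁ hpp _ (Or.inl (by rw [h]))
    · exact quad_pp_aux h₁ hpp _ (Or.inl (by rw [h]; exact zero_le_one))
    · rcases MulChar.isQuadratic_iff_sq_eq_one.mpr h₁ (p : ZMod N) with h' | h' | h'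
      · rw [quad_comm]
        exact quad_pp_aux h₂ hpp _ (Or.inl (by rw [h']))
      · rw [quad_comm]
        exact quad_pp_aux h₂ hpp _ (Or.inl (by rw [h']; exact zero_le_one))
      · exact quad_pp_aux h₁ hpp _ (Or.inr ⟨h, h'⟩)

theorem quad_one (ψ₁ ψ₂ : DirichletCharacter ℂ N) : quad ψ₁ ψ₂ 1 = 1 :=
  ((isMultiplicative_zetaMul ψ₁).mul ((isMultiplicative_toArithmeticFunction ψ₂).mul
    (isMultiplicative_toArithmeticFunction _))).map_one

theorem Af_summable [NeZero N] (ψ : DirichletCharacter ℂ N) {s : ℂ} (hs : 1 < s.re) :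
    LSeriesSummable (Af ψ) s :=
  (LSeriesSummable_congr _ fun h => (ψ.apply_eq_toArithmeticFunction_apply h).symm).mpr <|
    ZMod.LSeriesSummable_of_one_lt_re ψ hs

theorem Af_LSeries [NeZero N] (ψ : DirichletCharacter ℂ N) {s : ℂ} (hs : 1 < s.re) :
    LSeries (Af ψ) s = LFunction ψ s := by
  rw [ψ.LFunction_eq_LSeries hs]
  exact (LSeries_congr (fun {n} h => ψ.apply_eq_toArithmeticFunction_apply h) s).symm

/-- SW-8b -/
theorem stQuad : StQuad := by
  intro N _ ψ₁ ψ₂ h₁ h₂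
  refine ⟨quad ψ₁ ψ₂, fun n => ?_, quad_one ψ₁ ψ₂, fun s hs => ?_⟩
  · have := quad_nonneg h₁ h₂ n
    rw [Complex.le_def] at this
    exact ⟨this.1, this.2.symm⟩
  · have hz : LSeriesSummable (fun n => ((zeta : ArithmeticFunction ℂ) n)) s := by
      have := LSeriesSummable_zeta_iff.mpr hs
      simpa only [← natCoe_apply] using! this
    have hz1 : LSeries (fun n => ((zeta : ArithmeticFunction ℂ) n)) s = riemannZeta s := by
      simp_rw [← LSeries_zeta_eq_riemannZeta hs, ← natCoe_apply]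
    have h12 := ArithmeticFunction.LSeriesSummable_mul (Af_summable ψ₂ hs)
      (Af_summable (ψ₁ * ψ₂) hs)
    have e12 := ArithmeticFunction.LSeries_mul' (Af_summable ψ₂ hs) (Af_summable (ψ₁ * ψ₂) hs)
    have hz2 : LSeriesSummable (zetaMul ψ₁) s := LSeriesSummable_zetaMul ψ₁ hs
    have hz3 : LSeries (zetaMul ψ₁) s = riemannZeta s * LFunction ψ₁ s := by
      rw [← hz1, ← Af_LSeries ψ₁ hs]
      exact ArithmeticFunction.LSeries_mul' hz (Af_summable ψ₁ hs)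
    refine ⟨ArithmeticFunction.LSeriesSummable_mul hz2 h12, ?_⟩
    have := ArithmeticFunction.LSeries_mul' hz2 h12
    unfold quad
    rw [this, hz3, e12, Af_LSeries ψ₂ hs, Af_LSeries (ψ₁ * ψ₂) hs]
    ring

end Pool.Agent.Helper16.SW
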